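import Pool.Agent.Q127.MS.Defs
import Pool.Agent.Y468.SR.Iso

/-! Basic properties of monotone simplifications. -/

namespace Pool.Agent.Q127.MS

open Pool.Agent.Y468.SR

theorem Mono.trans {k l : ℕ} {D E F : Code} (h : Mono k D E) (h' : Mono l E F) :
    Mono (k + l) D F := by
  induction h with
  | refl D => rw [Nat.zero_add]; exact h'
  | perm h _ ih => exact .perm h (ih h')
  | rotate x y b R _ ih => exact .rotate x y b R (ih h')
  | rename f hf h _ ih => exact .rename f hf h (ih h')
  | death b R hb _ ih => exact .death b R hb (ih h')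
  | one A B p h hD hD' _ ih => exact .one A B p h hD hD' (ih h')
  | cut x y z b b' b₁ b₂ R A B C p q hb' hb h h'' hpq ho hs hD hD' _ ih =>
    rw [Nat.succ_add]
    exact .cut x y z b b' b₁ b₂ R A B C p q hb' hb h h'' hpq ho hs hD hD' (ih h')

theorem passes_length_perm {D D' : Code} (h : D.Perm D') : (passes D).length = (passes D').length :=
  (passes_perm h).length_eq

theorem Mono.length_le {k : ℕ} {D E : Code} (h : Mono k D E) :
    (passes E).length + 4 * k ≤ (passes D).length := by
  induction h with
  | refl D => simp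
  | perm h _ ih => rw [passes_length_perm h]; exact ih
  | rotate x y b R _ ih =>
    simp only [passes_cons, List.length_append] at ih ⊢
    omega
  | @rename k D E f hf h _ ih =>
    have e : (passes (renamed f D)).length = (passes D).length := by
      rw [passes_renamed, List.length_map]
    omega
  | death b R hb _ ih => simpa using ih
  | one A B p h hD hD' _ ih =>
    have e1 := congrArg (fun l => (pl l).length) hD
    have e2 := congrArg (fun l => (pl l).length) hD'
    simp only [pl_enc, pl_append, pl_two, List.length_append, List.length_cons,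
      List.length_nil] at e1 e2
    omega
  | cut x y z b b' b₁ b₂ R A B C p q hb' hb h h'' hpq ho hs hD hD' _ ih =>
    have e1 := congrArg (fun l => (pl l).length) hD
    have e2 := congrArg (fun l => (pl l).length) hD'
    simp only [pl_enc, pl_append, pl_two, List.length_append, List.length_cons,
      List.length_nil, passes_cons] at e1 e2 ⊢
    omega

theorem cut_steps {x y z : List Pass} {b b' b₁ b₂ : ℕ} {R : Code}
    (hD : Classical ((x ++ y ++ z, b) :: R)) (hb' : b' ≠ b ∧ ∀ C ∈ R, C.2 ≠ b')
    (hb : (b₁ = b ∧ b₂ = b') ∨ (b₁ = b' ∧ b₂ = b))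
    (h : Classical ((x ++ z, b₁) :: (y, b₂) :: R)) :
    Movie false false ((x ++ y ++ z, b) :: R) ((x ++ z, b₁) :: (y, b₂) :: R) := by
  have hmap : (R.map fun C => (C.1, if C.2 = b' then b else C.2)) = R := by
    conv_rhs => rw [← List.map_id R]
    refine List.map_congr_left fun C hC => ?_
    simp [hb'.2 C hC]
  rcases hb with ⟨rfl, rfl⟩ | ⟨rfl, rfl⟩
  · have s1 : Classical ((z ++ (x ++ y), b₁) :: R) := classical_rotate (b := b₁) hD
    have s2 : Step false false ((x ++ y ++ z, b₁) :: R) ((z ++ (x ++ y), b₁) :: R) :=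
      Step.rotate (x ++ y) z b₁ R
    have s3 : Classical ((z ++ x, b₁) :: (y, b₂) :: R) := classical_rotate (b := b₁) h
    have s4 : Step false false ((z ++ (x ++ y), b₁) :: R) ((z ++ x, b₁) :: (y, b₂) :: R) := by
      have := Step.split (r3 := false) (births := false) (z ++ x) y b₁ b₂ R hb'.1.symm
      rw [hmap] at this
      simpa using this
    have s5 : Step false false ((z ++ x, b₁) :: (y, b₂) :: R) ((x ++ z, b₁) :: (y, b₂) :: R) :=
      Step.rotate z x b₁ ((y, b₂) :: R)
    exact Movie.head hD s1 s2 (Movie.head s1 s3 s4 (Movie.head s3 h s5 Relation.ReflTransGen.refl))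
  · have s1 : Classical ((y ++ (z ++ x), b₂) :: R) := by
      have := classical_rotate (x := x) (y := y ++ z) (b := b₂) (b' := b₂) (R := R)
        (by simpa using hD)
      simpa using this
    have s2 : Step false false ((x ++ y ++ z, b₂) :: R) ((y ++ (z ++ x), b₂) :: R) := by
      have := Step.rotate (r3 := false) (births := false) x (y ++ z) b₂ R
      simpa using this
    have s3 : Classical ((z ++ x, b₁) :: (y, b₂) :: R) := classical_rotate (b := b₁) h
    have s3' : Classical ((y, b₂) :: (z ++ x, b₁) :: R) :=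
      classical_perm (List.Perm.swap _ _ _) s3
    have s4 : Step false false ((y ++ (z ++ x), b₂) :: R) ((y, b₂) :: (z ++ x, b₁) :: R) := by
      have := Step.split (r3 := false) (births := false) y (z ++ x) b₂ b₁ R hb'.1.symm
      rw [hmap] at this
      exact this
    have s5 : Step false false ((y, b₂) :: (z ++ x, b₁) :: R) ((z ++ x, b₁) :: (y, b₂) :: R) :=
      Step.perm _ _ (List.Perm.swap _ _ _)
    have s6 : Step false false ((z ++ x, b₁) :: (y, b₂) :: R) ((x ++ z, b₁) :: (y, b₂) :: R) :=
      Step.rotate z x b₁ ((y, b₂) :: R)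
    exact Movie.head hD s1 s2 (Movie.head s1 s3' s4 (Movie.head s3' s3 s5
      (Movie.head s3 h s6 Relation.ReflTransGen.refl)))

theorem Mono.movie {k : ℕ} {D E : Code} (h : Mono k D E) (hD : Classical D) :
    Movie false false D E ∧ Classical E := by
  induction h with
  | refl D => exact ⟨.refl, hD⟩
  | perm h _ ih =>
    have h1 := classical_perm h hD
    obtain ⟨h2, h3⟩ := ih h1
    exact ⟨Movie.head hD h1 (.perm _ _ h) h2, h3⟩
  | rotate x y b R _ ih =>
    have h1 : Classical ((y ++ x, b) :: R) := classical_rotate hD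
    obtain ⟨h2, h3⟩ := ih h1
    exact ⟨Movie.head hD h1 (.rotate x y b R) h2, h3⟩
  | rename f hf h _ ih =>
    obtain ⟨h2, h3⟩ := ih h
    exact ⟨Movie.head hD h (.rename f _ hf) h2, h3⟩
  | death b R hb _ ih =>
    have h1 := classical_drop hD
    obtain ⟨h2, h3⟩ := ih h1
    exact ⟨Movie.head hD h1 (.death b R hb) h2, h3⟩
  | one A B p h hE hE' _ ih =>
    obtain ⟨h2, h3⟩ := ih h
    refine ⟨Movie.head hD h (.reid _ _ ?_) h2, h3⟩
    rw [hE, hE']
    exact .one A B p
  | cut x y z b b' b₁ b₂ R A B C p q hb' hb h h' hpq ho hs hE hE' _ ih =>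
    obtain ⟨h2, h3⟩ := ih h'
    refine ⟨(cut_steps hD hb' hb h).trans (Movie.head h h' (.reid _ _ ?_) h2), h3⟩
    rw [hE, hE']
    exact .twoSame A B C p q hpq ho hs

theorem Mono.nodup {k : ℕ} {D E : Code} (h : Mono k D E) (hD : Classical D)
    (hn : (D.map Prod.snd).Nodup) : (E.map Prod.snd).Nodup :=
  nodup_movie (h.movie hD).1 hn

theorem Mono.nil {k : ℕ} {D E : Code} (h : Mono k D E) (hD : D = []) : E = [] := by
  induction h with
  | refl D => exact hD
  | perm h _ ih => exact ih (by subst hD; exact h.nil_eq.symm)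
  | rotate x y b R _ _ => simp at hD
  | rename f _ _ _ ih => exact ih (by subst hD; rfl)
  | death b R hb _ _ => simp at hD
  | one A B p h hE _ _ _ => subst hD; simp [two] at hE
  | cut => simp at hD

theorem Same.refl (k : List Pass) : Same k k :=
  ⟨id, fun _ _ _ _ h => h, by simpa using List.IsRotated.refl k⟩

theorem map_map_ren (f g : ℕ → ℕ) (k : List Pass) :
    (k.map (ren f)).map (ren g) = k.map (ren (g ∘ f)) := by
  rw [List.map_map]; rfl

theorem Same.trans {k k' k'' : List Pass} (h : Same k k') (h' : Same k' k'') : Same k k'' := by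
  obtain ⟨f, hf, hr⟩ := h
  obtain ⟨g, hg, hr'⟩ := h'
  change (k.map (ren f)).IsRotated k' at hr
  change (k'.map (ren g)).IsRotated k'' at hr'
  refine ⟨g ∘ f, fun p hp q hq h => ?_, ?_⟩
  · have hp' : ren f p ∈ k' := hr.mem_iff.1 (List.mem_map_of_mem hp)
    have hq' : ren f q ∈ k' := hr.mem_iff.1 (List.mem_map_of_mem hq)
    exact hf p hp q hq (hg _ hp' _ hq' h)
  · change (k.map (ren (g ∘ f))).IsRotated k''
    rw [← map_map_ren]
    exact (hr.map _).trans hr'

theorem Same.symm {k k' : List Pass} (h : Same k k') : Same k' k := by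
  classical
  obtain ⟨f, hf, hr⟩ := h
  change (k.map (ren f)).IsRotated k' at hr
  obtain ⟨g, hg⟩ : ∃ g : ℕ → ℕ, ∀ p ∈ k, g (f p.crossing) = p.crossing := by
    refine ⟨fun y => if h : ∃ p ∈ k, f p.crossing = y then h.choose.crossing else 0,
      fun p hp => ?_⟩
    have h1 : ∃ p' ∈ k, f p'.crossing = f p.crossing := ⟨p, hp, rfl⟩
    simp only
    rw [dif_pos h1]
    exact hf _ h1.choose_spec.1 p hp h1.choose_spec.2
  have key : ∀ p' ∈ k', ∃ p ∈ k, p' = ren f p := by
    intro p' hp'
    obtain ⟨p, hp, h⟩ := List.mem_map.1 (hr.mem_iff.2 hp')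
    exact ⟨p, hp, h.symm⟩
  refine ⟨g, fun p hp q hq h => ?_, ?_⟩
  · obtain ⟨p', hp', rfl⟩ := key p hp
    obtain ⟨q', hq', rfl⟩ := key q hq
    simp only [ren] at h ⊢
    rw [hg p' hp', hg q' hq'] at h
    rw [h]
  · change (k'.map (ren g)).IsRotated k
    have h1 := hr.map (ren g)
    rw [map_map_ren] at h1
    have e : k.map (ren (g ∘ f)) = k := by
      conv_rhs => rw [← List.map_id k]
      refine List.map_congr_left fun p hp => ?_
      simp [ren, hg p hp]
    rw [e] at h1
    exact h1.symm

theorem same_of_rotate (x y : List Pass) : Same (x ++ y) (y ++ x) := by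
  refine ⟨id, fun _ _ _ _ h => h, ?_⟩
  have : ((x ++ y).map fun p => (⟨id p.crossing, p.isOver, p.isPos⟩ : Pass)) = x ++ y := by simp
  rw [this]
  exact List.isRotated_append

theorem Mono.same {s : ℕ} {D E : Code} (h : Mono s D E) : ∀ {k w : List Pass} {b b' : ℕ},
    D = [(k, b)] → E = [(w, b')] → w.length = k.length → s = 0 ∧ Same k w := by
  induction h with
  | refl D =>
    intro k w b b' h1 h2 _
    rw [h1] at h2
    simp only [List.cons.injEq, Prod.mk.injEq, and_true] at h2
    rw [h2.1]
    exact ⟨rfl, Same.refl _⟩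
  | perm h _ ih =>
    intro k w b b' h1 h2 h3
    subst h1
    exact ih (List.perm_singleton.1 h.symm) h2 h3
  | rotate x y b R _ ih =>
    intro k w b₀ b' h1 h2 h3
    simp only [List.cons.injEq, Prod.mk.injEq] at h1
    obtain ⟨⟨rfl, rfl⟩, rfl⟩ := h1
    obtain ⟨h4, h5⟩ := ih rfl h2 (by rw [h3]; simp [Nat.add_comm])
    exact ⟨h4, (same_of_rotate x y).trans h5⟩
  | rename f hf h _ ih =>
    intro k w b b' h1 h2 h3
    subst h1
    obtain ⟨h4, h5⟩ := ih (k := k.map (ren f)) (b := b) rfl h2 (by rw [h3]; simp)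
    refine ⟨h4, Same.trans ⟨f, fun p hp q hq h => hf p ?_ q ?_ h, List.IsRotated.refl _⟩ h5⟩
    · simpa using hp
    · simpa using hq
  | death b R hb hm ih =>
    intro k w b₀ b' h1 h2 _
    simp only [List.cons.injEq] at h1
    have := hm.nil h1.2
    rw [this] at h2
    simp at h2
  | one A B p h hD hD' hm ih =>
    intro k w b b' h1 h2 h3
    exfalso
    have h4 := hm.length_le
    have e1 := congrArg (fun l => (pl l).length) hD
    have e2 := congrArg (fun l => (pl l).length) hD'
    simp only [pl_enc, pl_append, pl_two, List.length_append, List.length_cons,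
      List.length_nil] at e1 e2
    rw [h1] at e1
    rw [h2] at h4
    simp only [passes_cons, passes_nil, List.append_nil] at e1 h4
    omega
  | cut x y z b₀ b'' b₁ b₂ R A B C p q hb' hb h h'' hpq ho hs hD hD' hm ih =>
    intro k w b b' h1 h2 h3
    exfalso
    have h4 := (Mono.cut x y z b₀ b'' b₁ b₂ R A B C p q hb' hb h h'' hpq ho hs hD hD' hm).length_le
    rw [h1, h2] at h4
    simp only [passes_cons, passes_nil, List.append_nil] at h4
    omega

theorem classical_ren_on {f : ℕ → ℕ} {k k' : List Pass} (h' : Classical [(k', 0)])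
    (h : (k.map (ren f)).IsRotated k') : Classical [(k.map (ren f), 0)] := by
  obtain ⟨n, hn, hr⟩ := List.isRotated_iff_mod.1 h
  rw [List.rotate_eq_drop_append_take hn] at hr
  have : Classical [((k.map (ren f)).take n ++ (k.map (ren f)).drop n, 0)] := by
    refine classical_rotate (x := (k.map (ren f)).drop n) (b := 0) ?_
    rw [hr]; exact h'
  rwa [List.take_append_drop] at this

theorem Same.mono {k k' : List Pass} (h : Same k k') (hk' : Classical [(k', 0)]) :
    Mono 0 [(k, 0)] [(k', 0)] := by
  obtain ⟨f, hf, hr⟩ := h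
  change (k.map (ren f)).IsRotated k' at hr
  have hc := classical_ren_on hk' hr
  refine .rename f (fun p hp q hq h => hf p (by simpa using hp) q (by simpa using hq) h) hc ?_
  obtain ⟨n, hn, hr⟩ := List.isRotated_iff_mod.1 hr
  rw [List.rotate_eq_drop_append_take hn] at hr
  have : Mono 0 [((k.map (ren f)).take n ++ (k.map (ren f)).drop n, 0)] [(k', 0)] :=
    .rotate _ _ 0 [] (by rw [hr]; exact .refl _)
  rwa [List.take_append_drop] at this

end Pool.Agent.Q127.MS
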