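import Pool.Agent.Q127.MS.Basic

/-! The reduction relative to a fixed diagram gives monotone simplifications. The proofs follow those
in `Y468/SR/Rel.lean`, `RelB.lean` and `Term.lean`. -/

namespace Pool.Agent.Q127.MS

open Pool.Agent.Y468.SR

set_option linter.unusedSimpArgs false

/-- The result of one step of the reduction. -/
def RedM (D : Code) (e : List Pass) : Prop :=
  ∃ (k : ℕ) (D' : Code), (passes D').length < (passes D).length ∧ Good D' e ∧ Mono k D D'

theorem caseAM {D : Code} {e : List Pass} (hG : Good D e) {C : List Pass × ℕ} (hC : C ∈ D)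
    {a c : List Pass} {p q : Pass} (h : C.1 = a ++ p :: q :: c)
    (h1 : q.crossing = p.crossing) (h2 : q.isOver = !p.isOver) : RedM D e := by
  have hD := hG.cl
  have hp : p ∈ passes D := mem_passes.2 ⟨C, hC, by simp [h]⟩
  have hq : q ∈ passes D := mem_passes.2 ⟨C, hC, by simp [h]⟩
  have hqp : q = p.mate := by
    rcases hD.1.eq_mate hp hq h1 with rfl | rfl
    · simp at h2
    · rfl
  subst hqp
  obtain ⟨D', A, B, e1, e2, e3⟩ := exists_remove hC h
  have hperm : (passes D).Perm ([p, p.mate] ++ passes D') := by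
    rw [← pl_enc, ← pl_enc, e1, e2]
    simp only [pl_append, pl_two, List.append_assoc]
    rw [← List.append_assoc, ← List.append_assoc]
    exact List.Perm.append_right _ List.perm_append_comm
  have hW : WF ([p, p.mate] ++ passes D') := WF.perm hperm hD.1
  have hW' : WF (passes D') := hW.remove (by simp)
  have hD' : Classical D' := by
    refine ⟨hW', planar_iff.2 ?_⟩
    rw [e2]
    refine planarE_one (p := p) (fun r hr => ?_) ?_
    · rw [← e2, pl_enc] at hr
      exact hW.ne_crossing (by simp) (by simp) hr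
    · rw [← e1]; exact planar_iff.1 hD.2
  have hR' : Reid false (enc (D ++ [(e, 0)])) (enc (D' ++ [(e, 0)])) := by
    rw [enc_append, enc_append, e1, e2]
    have := Reid.one (r3 := false) A (B ++ enc [(e, 0)]) p
    simpa only [List.append_assoc] using this
  have hWe : WF (passes D' ++ e) := by
    refine WF.remove (k := [p, p.mate]) (WF.perm ?_ hG.wf) (by simp)
    rw [← List.append_assoc]
    exact List.Perm.append_right _ hperm
  have hI : Pool.Agent.Y468.SR.Inv (D' ++ [(e, 0)]) := by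
    refine step_inv (births := false) (D' := D ++ [(e, 0)]) ?_ ?_ (Step.reidInv _ _ hR') hG.inv
    · rw [wf_iff, passes_snoc]; exact hWe
    · rw [wf_iff, passes_snoc]; exact hG.wf
  refine ⟨0, D', ?_, ⟨hD', by rw [e3]; exact hG.nd, zero_of_labels e3 hG.zero, hWe, hI⟩,
    .one A B p hD' e1 e2 (.refl _)⟩
  rw [hperm.length_eq]; simp

theorem r2_afterM {p q : Pass} {y z : List Pass} {R : Code} {b₁ b₂ : ℕ}
    (hD₄ : Classical ((p :: q :: z, b₁) :: (y, b₂) :: R)) (hpq : p.crossing ≠ q.crossing)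
    (h2 : q.isOver = p.isOver) (hs : q.isPos = !p.isPos) {C₃ : List Pass × ℕ}
    (hC₃ : C₃ ∈ ((z, b₁) :: (y, b₂) :: R)) {a₃ c₃ : List Pass}
    (h₃ : C₃.1 = a₃ ++ p.mate :: q.mate :: c₃) :
    ∃ D', (∃ A B, enc ((p :: q :: z, b₁) :: (y, b₂) :: R) =
      [] ++ two p q ++ A ++ two p.mate q.mate ++ B ∧ enc D' = [] ++ A ++ B) ∧ Classical D' ∧
      D'.map Prod.snd = ((p :: q :: z, b₁) :: (y, b₂) :: R).map Prod.snd ∧
      (passes ((p :: q :: z, b₁) :: (y, b₂) :: R)).Perm ([p, q, p.mate, q.mate] ++ passes D') ∧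
      ∀ X, Reid false (enc ((p :: q :: z, b₁) :: (y, b₂) :: R) ++ X) (enc D' ++ X) := by
  obtain ⟨D', A, B, f1, f2, f3⟩ := exists_remove hC₃ h₃
  have g1 : enc ((p :: q :: z, b₁) :: (y, b₂) :: R) =
      [] ++ two p q ++ A ++ two p.mate q.mate ++ B := by
    have : enc ((p :: q :: z, b₁) :: (y, b₂) :: R) = two p q ++ enc ((z, b₁) :: (y, b₂) :: R) := by
      simp [two]
    rw [this, f1]; simp
  have g2 : enc D' = [] ++ A ++ B := by rw [f2]; simp
  have hperm₅ : (passes ((p :: q :: z, b₁) :: (y, b₂) :: R)).Perm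
      ([p, q, p.mate, q.mate] ++ passes D') := by
    rw [← pl_enc, ← pl_enc, g1, g2]
    simp only [pl_append, pl_two, List.append_assoc, pl_nil, List.nil_append, List.cons_append]
    refine List.Perm.cons _ (List.Perm.cons _ ?_)
    have : (pl A ++ (p.mate :: (q.mate :: pl B))).Perm (p.mate :: (pl A ++ (q.mate :: pl B))) :=
      List.perm_middle
    exact this.trans (List.Perm.cons _ List.perm_middle)
  have hW₅ : WF ([p, q, p.mate, q.mate] ++ passes D') := WF.perm hperm₅ hD₄.1
  have hW₆ : WF (passes D') := hW₅.remove (by simp)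
  have hD' : Classical D' := by
    refine ⟨hW₆, planar_iff.2 ?_⟩
    rw [g2]
    refine planarE_two (p := p) (q := q) (fun r hr => ?_) hpq h2.symm hs ?_
    · rw [← g2, pl_enc] at hr
      exact ⟨hW₅.ne_crossing (by simp) (by simp) hr, hW₅.ne_crossing (by simp) (by simp) hr⟩
    · rw [← g1]; exact planar_iff.1 hD₄.2
  refine ⟨D', ⟨A, B, g1, g2⟩, hD', ?_, hperm₅, fun X => ?_⟩
  · rw [f3]; simp
  · rw [g1, g2]
    have := Reid.twoSame (r3 := false) [] A (B ++ X) p q hpq h2.symm hs
    simpa only [List.append_assoc] using this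

theorem caseBM' {p q : Pass} {v : List Pass} {b : ℕ} {R : Code} {e : List Pass}
    (hG : Good ((p :: v, b) :: R) e) {m : ℕ → ℕ}
    (hm : Matching (passes ((p :: v, b) :: R) ++ e) m) (hN : NullR ((p :: v, b) :: R) e m)
    {C : List Pass × ℕ} (hC : C ∈ ((p :: v, b) :: R)) {a c : List Pass}
    (h : C.1 = a ++ p.mate :: q.mate :: c) (h0 : m p.crossing ≠ p.crossing)
    (h1 : q.crossing = m p.crossing) (h2 : q.isOver = p.isOver) : RedM ((p :: v, b) :: R) e := by
  have hD := hG.cl
  have hn := hG.nd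
  have hp : p ∈ passes ((p :: v, b) :: R) := by simp
  have hpe : p ∈ passes ((p :: v, b) :: R) ++ e := List.mem_append_left _ hp
  have hq' : q.mate ∈ passes ((p :: v, b) :: R) := mem_passes.2 ⟨C, hC, by simp [h]⟩
  have hq : q ∈ passes ((p :: v, b) :: R) := by simpa using hD.1.1 _ hq'
  have hpq : p.crossing ≠ q.crossing := by rw [h1]; exact Ne.symm h0
  have hmq : m q.crossing = p.crossing := by rw [h1]; exact matching_invol hm hpe
  have hWe : WF (passes ((p :: v, b) :: R) ++ e) := hG.wf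
  have eq_of : ∀ r ∈ passes ((p :: v, b) :: R) ++ e, ∀ r' ∈ passes ((p :: v, b) :: R) ++ e,
      r.crossing = r'.crossing → r.isOver = r'.isOver → r = r' := fun r hr r' hr' hc ho =>
    List.inj_on_of_nodup_map hWe.2 hr hr' (by simp [hc, ho])
  have hs : q.isPos = !p.isPos := by
    obtain ⟨q₀, g1, g2, g3, g4⟩ := hm p hpe
    have : q₀.isPos = q.isPos := by
      by_cases ho : q₀.isOver = q.isOver
      · rw [eq_of q₀ g1 q (List.mem_append_left _ hq) (by rw [g2, h1]) ho]
      · have := eq_of q₀.mate (hWe.1 _ g1) q (List.mem_append_left _ hq)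
          (by rw [h1, ← g2]; rfl) (by
            simp only [mate_isOver]
            cases h3 : q₀.isOver <;> cases h4 : q.isOver <;> simp_all)
        rw [← this]; rfl
    rw [← this]
    exact g4 (by rw [g2]; exact h0)
  have e1 : p.mate ≠ p := by intro h; simpa using congrArg Pass.isOver h
  have e2 : q.mate ≠ q := by intro h; simpa using congrArg Pass.isOver h
  have e3 : p.mate ≠ q := fun h => hpq (congrArg Pass.crossing h : p.mate.crossing = q.crossing)
  have e4 : q.mate ≠ p := fun h =>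
    hpq (congrArg Pass.crossing h : q.mate.crossing = p.crossing).symm
  have e5 : p ≠ q := fun h => hpq (congrArg Pass.crossing h)
  have hnd := WF.nodup hD.1
  have hnde := WF.nodup hWe
  have hpv : p ∉ v := by
    rw [passes_cons, List.cons_append, List.nodup_cons] at hnd
    exact fun h => hnd.1 (by simp [h])
  have hpne : p ∉ e := fun h => (List.nodup_append.1 hnde).2.2 p hp p h rfl
  have hqne : q ∉ e := fun h => (List.nodup_append.1 hnde).2.2 q hq q h rfl
  -- the passages of one type at the two crossings belong to the same component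
  have hqv : q ∈ v := by
    by_contra hqv
    have hv1 : Valid (passes ((p :: v, b) :: R) ++ e) m (fun _ => (1 : Multiplicative ℤ))
        (fun _ => 1) := fun r _ => by simp
    have h3 := hN _ _ _ (valid_tw hv1 hm h1.symm hmq hpq (Multiplicative.ofAdd 1) p.isOver)
      (p :: v, b) (by simp)
    have htriv : ∀ w : List Pass, (∀ r ∈ w, r ∈ passes ((p :: v, b) :: R) ++ e) → p ∉ w → q ∉ w →
        wval (tw p.crossing q.crossing (Multiplicative.ofAdd (1 : ℤ)) p.isOver fun _ => 1)
        (tw p.crossing q.crossing (Multiplicative.ofAdd (1 : ℤ)) (!p.isOver) fun _ => 1) w = 1 := by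
      intro w hw hpw hqw
      refine Eq.trans (wval_congr fun r hr => ?_) (wval_one_int w)
      rw [val_tw]
      split_ifs with k1 k2 k3
      · exact absurd (eq_of r (hw r hr) p hpe k2 k1 ▸ hr) hpw
      · exact absurd (eq_of r (hw r hr) q (List.mem_append_left _ hq) k3 (k1.trans h2.symm) ▸ hr) hqw
      · rfl
      · rfl
    have h4 : wval (tw p.crossing q.crossing (Multiplicative.ofAdd (1 : ℤ)) p.isOver fun _ => 1)
        (tw p.crossing q.crossing (Multiplicative.ofAdd (1 : ℤ)) (!p.isOver) fun _ => 1) (p :: v) =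
        Multiplicative.ofAdd (1 : ℤ) := by
      rw [wval_cons, htriv v (fun r hr => by simp [hr]) hpv hqv, val_tw, if_pos rfl, if_pos rfl,
        mul_one]
    have h5 := htriv e (fun r hr => List.mem_append_right _ hr) hpne hqne
    simp only [h4, h5] at h3
    have h6 : Multiplicative.ofAdd (1 : ℤ) = 1 := by
      by_cases hb : b = 0
      · exact cn_one_of (h3.2 hb)
      · exact h3.1 hb
    have := congrArg Multiplicative.toAdd h6
    simp at this
  obtain ⟨y, z, rfl⟩ := List.append_of_mem hqv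
  have hqy : q ∉ y ∧ q ∉ z ∧ p ∉ y ∧ p ∉ z := by
    have h3 : (p :: (y ++ q :: z) ++ passes R).Nodup := by simpa using hnd
    rw [List.cons_append, List.nodup_cons, List.append_assoc, List.nodup_append] at h3
    obtain ⟨h3, h4, h5, h6⟩ := h3
    rw [List.cons_append, List.nodup_cons] at h5
    refine ⟨fun h => h6 q h q (by simp) rfl, fun h => h5.1 (by simp [h]), fun h => h3 (by simp [h]),
      fun h => h3 (by simp [h])⟩
  obtain ⟨b', hb'⟩ := Infinite.exists_notMem_finset
    (((p :: (y ++ q :: z), b) :: R).map Prod.snd).toFinset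
  have hb'' : ∀ C ∈ ((p :: (y ++ q :: z), b) :: R), C.2 ≠ b' := by
    intro C hC h
    exact hb' (by rw [← h]; exact List.mem_toFinset.2 (List.mem_map_of_mem hC))
  have hb'0 : b' ≠ 0 := by
    obtain ⟨C₀, hC₀, h₀⟩ := hG.zero
    rw [← h₀]; exact (hb'' C₀ hC₀).symm
  have hb' : b' ≠ b ∧ ∀ C ∈ R, C.2 ≠ b' :=
    ⟨(hb'' _ List.mem_cons_self).symm, fun C hC => hb'' C (List.mem_cons_of_mem _ hC)⟩
  -- the factor
  have hfac : ∀ b₁ b₂, ∃ C₃ ∈ ((z, b₁) :: (y, b₂) :: R), ∃ a₃ c₃,
      C₃.1 = a₃ ++ p.mate :: q.mate :: c₃ := by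
    intro b₁ b₂
    rcases List.mem_cons.1 hC with rfl | hC
    · rcases a with _ | ⟨s, a⟩
      · simp only [List.nil_append, List.cons.injEq] at h
        exact absurd h.1.symm e1
      · simp only [List.cons_append, List.cons.injEq] at h
        rcases fac_mid h.2 e3.symm e2.symm with ⟨a', c', h⟩ | ⟨a', c', h⟩
        · exact ⟨(y, b₂), by simp, a', c', h⟩
        · exact ⟨(z, b₁), by simp, a', c', h⟩
    · exact ⟨C, by simp [hC], a, c, h⟩
  -- the values of the two parts
  have hyP : ∀ r ∈ y, r ∈ passes ((p :: (y ++ q :: z), b) :: R) ++ e := fun r hr => by simp [hr]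
  have hzP : ∀ r ∈ z, r ∈ passes ((p :: (y ++ q :: z), b) :: R) ++ e := fun r hr => by simp [hr]
  have hYZ : (b ≠ 0 → ∀ (G : Type) [Group G] (o u : ℕ → G),
      Valid (passes ((p :: (y ++ q :: z), b) :: R) ++ e) m o u → wval o u y = 1 ∧ wval o u z = 1) ∧
      (b = 0 → (∀ (G : Type) [Group G] (o u : ℕ → G),
      Valid (passes ((p :: (y ++ q :: z), b) :: R) ++ e) m o u → wval o u y = 1) ∨
      (∀ (G : Type) [Group G] (o u : ℕ → G),
      Valid (passes ((p :: (y ++ q :: z), b) :: R) ++ e) m o u → wval o u z = 1)) := by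
    have hv' := valid_letter hm
    have hv2 := valid_tw (valid_map (lft _) hv') hm h1.symm hmq hpq
      (Equiv.sumComm _ _ : Equiv.Perm (FreeGroup (ℕ × Bool) ⊕ FreeGroup (ℕ × Bool))) p.isOver
    have h3 := hN _ _ _ hv2 _ (List.mem_cons_self)
    have hval : ∀ w : List Pass, (∀ r ∈ w, r ∈ passes ((p :: (y ++ q :: z), b) :: R) ++ e) → p ∉ w →
        q ∉ w → wval (tw p.crossing q.crossing
          (Equiv.sumComm _ _ : Equiv.Perm (FreeGroup (ℕ × Bool) ⊕ FreeGroup (ℕ × Bool))) p.isOver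
          fun c => lft _ (fo m c)) (tw p.crossing q.crossing
          (Equiv.sumComm _ _ : Equiv.Perm (FreeGroup (ℕ × Bool) ⊕ FreeGroup (ℕ × Bool)))
          (!p.isOver) fun c => lft _ (fu m c)) w = lft _ (wval (fo m) (fu m) w) := by
      intro w hw hpw hqw
      rw [← wval_map]
      refine wval_congr fun r hr => ?_
      rw [val_tw]
      split_ifs with k1 k2 k3
      · exact absurd (eq_of r (hw r hr) p hpe k2 k1 ▸ hr) hpw
      · exact absurd (eq_of r (hw r hr) q (List.mem_append_left _ hq) k3 (k1.trans h2.symm) ▸ hr) hqw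
      · rfl
      · rfl
    simp only [wval_cons, wval_append] at h3
    rw [hval y hyP hqy.2.2.1 hqy.1, hval z hzP hqy.2.2.2 hqy.2.1,
      hval e (fun r hr => List.mem_append_right _ hr) hpne hqne, val_tw, val_tw, if_pos rfl,
      if_pos rfl, if_pos h2, if_neg hpq.symm, if_pos rfl, ← mul_assoc, ← mul_assoc] at h3
    refine ⟨fun hb G _ o u hv => ?_, fun hb => ?_⟩
    · obtain ⟨hY, hZ⟩ := eq_one_of_twist (h3.1 hb)
      obtain ⟨φ, hφ⟩ := univ hv
      exact ⟨by rw [← hφ y hyP, hY, map_one], by rw [← hφ z hzP, hZ, map_one]⟩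
    · rcases fix_of_conj (h3.2 hb) with hY | hZ
      · left; intro G _ o u hv
        obtain ⟨φ, hφ⟩ := univ hv
        rw [← hφ y hyP, hY, map_one]
      · right; intro G _ o u hv
        obtain ⟨φ, hφ⟩ := univ hv
        rw [← hφ z hzP, hZ, map_one]
  -- the labels of the two parts
  obtain ⟨b₁, b₂, hb₁₂, hval⟩ : ∃ b₁ b₂, ((b₁ = b ∧ b₂ = b') ∨ (b₁ = b' ∧ b₂ = b)) ∧
      ∀ (G : Type) [Group G] (o u : ℕ → G),
        Valid (passes ((p :: (y ++ q :: z), b) :: R) ++ e) m o u →
        ((b₁ ≠ 0 → wval o u (p :: q :: z) = 1) ∧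
          (b₁ = 0 → CN [wval o u (p :: q :: z), wval o u e])) ∧
        ((b₂ ≠ 0 → wval o u y = 1) ∧ (b₂ = 0 → CN [wval o u y, wval o u e])) := by
    have hcanc : ∀ (G : Type) [Group G] (o u : ℕ → G),
        Valid (passes ((p :: (y ++ q :: z), b) :: R) ++ e) m o u →
        val o u p * val o u q = 1 ∧ val o u q * val o u p = 1 := by
      intro G _ o u hv
      obtain ⟨-, k2⟩ := hv p hpe
      obtain ⟨k3, k4⟩ := k2 h0
      rw [← h1] at k3 k4
      exact val_pair p q h2.symm k3 k4
    by_cases hb0 : b = 0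
    · rcases hYZ.2 hb0 with hY | hZ
      · refine ⟨b, b', Or.inl ⟨rfl, rfl⟩, fun G _ o u hv => ⟨⟨fun h => absurd hb0 h, fun _ => ?_⟩,
          fun _ => hY G o u hv, fun h => absurd h hb'0⟩⟩
        have := (hN G o u hv _ List.mem_cons_self).2 hb0
        simp only [wval_cons, wval_append, hY G o u hv, one_mul] at this ⊢
        exact this
      · refine ⟨b', b, Or.inr ⟨rfl, rfl⟩, fun G _ o u hv => ⟨⟨fun _ => ?_, fun h => absurd h hb'0⟩,
          fun h => absurd hb0 h, fun _ => ?_⟩⟩
        · simp only [wval_cons, hZ G o u hv, mul_one]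
          exact (hcanc G o u hv).1
        · have := (hN G o u hv _ List.mem_cons_self).2 hb0
          simp only [wval_cons, wval_append, hZ G o u hv, mul_one] at this
          have h5 := this.conj_head (val o u q)
          have h6 : val o u q * (val o u p * (wval o u y * val o u q)) * (val o u q)⁻¹ =
              (val o u q * val o u p) * wval o u y := by group
          rw [h6, (hcanc G o u hv).2, one_mul] at h5
          exact h5
    · refine ⟨b, b', Or.inl ⟨rfl, rfl⟩, fun G _ o u hv => ⟨⟨fun h => ?_, fun h => absurd h hb0⟩,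
          fun _ => (hYZ.1 hb0 G o u hv).1, fun h => absurd h hb'0⟩⟩
      simp only [wval_cons, (hYZ.1 hb0 G o u hv).2, mul_one]
      exact (hcanc G o u hv).1
  obtain ⟨C₃, hC₃, a₃, c₃, h₃⟩ := hfac b₁ b₂
  obtain ⟨hperm₄, hD₄, -⟩ := cut_movie hD hpq h2 hs hb' hb₁₂ hC₃ h₃
  obtain ⟨D', ⟨A, B, g1, g2⟩, hD', f3, hperm₅, hRe⟩ := r2_afterM hD₄ hpq h2 hs hC₃ h₃
  have hperm₄e : (passes ((p :: (y ++ q :: z), b) :: R) ++ e).Perm
      (passes ((p :: q :: z, b₁) :: (y, b₂) :: R) ++ e) := List.Perm.append_right _ hperm₄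
  have hWe₄ : WF (passes ((p :: q :: z, b₁) :: (y, b₂) :: R) ++ e) := WF.perm hperm₄e hWe
  have hm₄ : Matching (passes ((p :: q :: z, b₁) :: (y, b₂) :: R) ++ e) m :=
    matching_congr (fun r => hperm₄e.mem_iff) hm
  have hN₄ : NullR ((p :: q :: z, b₁) :: (y, b₂) :: R) e m := by
    intro G _ o u hv C hC
    have hv' : Valid (passes ((p :: (y ++ q :: z), b) :: R) ++ e) m o u :=
      valid_congr (fun r => hperm₄e.symm.mem_iff) hv
    obtain ⟨v1, v2⟩ := hval G o u hv'
    simp only [List.mem_cons] at hC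
    rcases hC with rfl | rfl | hC
    · exact v1
    · exact v2
    · exact hN G o u hv' C (List.mem_cons_of_mem _ hC)
  have hn₄ : (((p :: q :: z, b₁) :: (y, b₂) :: R).map Prod.snd).Nodup := by
    simp only [List.map_cons, List.nodup_cons, List.mem_cons, not_or] at hn ⊢
    have hR' : b' ∉ R.map Prod.snd := by
      intro h
      obtain ⟨C, hC, h⟩ := List.mem_map.1 h
      exact hb'.2 C hC h
    rcases hb₁₂ with ⟨rfl, rfl⟩ | ⟨rfl, rfl⟩
    · exact ⟨⟨hb'.1.symm, hn.1⟩, hR', hn.2⟩
    · exact ⟨⟨hb'.1, hR'⟩, hn.1, hn.2⟩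
  have hz₄ : ∃ C ∈ ((p :: q :: z, b₁) :: (y, b₂) :: R), C.2 = 0 := by
    obtain ⟨C₀, hC₀, h₀⟩ := hG.zero
    rcases List.mem_cons.1 hC₀ with rfl | hC₀
    · simp only at h₀
      rcases hb₁₂ with ⟨h5, h6⟩ | ⟨h5, h6⟩
      · exact ⟨(p :: q :: z, b₁), by simp, by rw [← h₀, h5]⟩
      · exact ⟨(y, b₂), by simp, by rw [← h₀, h6]⟩
    · exact ⟨C₀, by simp [hC₀], h₀⟩
  have hI₄ := inv_of_nullR hn₄ hz₄ hm₄ hN₄
  have hWe₅ : WF (passes D' ++ e) := by
    refine WF.remove (k := [p, q, p.mate, q.mate]) (WF.perm ?_ hWe₄) (by simp)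
    rw [← List.append_assoc]
    exact List.Perm.append_right _ hperm₅
  have hRe' : Reid false (enc (((p :: q :: z, b₁) :: (y, b₂) :: R) ++ [(e, 0)]))
      (enc (D' ++ [(e, 0)])) := by
    rw [enc_append, enc_append]; exact hRe _
  have hI₅ : Pool.Agent.Y468.SR.Inv (D' ++ [(e, 0)]) := by
    refine step_inv (births := false) (D' := ((p :: q :: z, b₁) :: (y, b₂) :: R) ++ [(e, 0)])
      ?_ ?_ (Step.reidInv _ _ hRe') hI₄
    · rw [wf_iff, passes_snoc]; exact hWe₅
    · rw [wf_iff, passes_snoc]; exact hWe₄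
  refine ⟨1, D', ?_, ⟨hD', by rw [f3]; exact hn₄, zero_of_labels f3 hz₄, hWe₅, hI₅⟩,
    .cut [p] y (q :: z) b b' b₁ b₂ R [] A B p q hb' hb₁₂ hD₄ hD' hpq h2.symm hs g1 g2 (.refl _)⟩
  rw [hperm₄.length_eq, hperm₅.length_eq]; simp; omega

theorem redM_of_mono {k : ℕ} {D D₁ : Code} {e : List Pass} (hm : Mono k D D₁)
    (hl : (passes D₁).length = (passes D).length) (h : RedM D₁ e) : RedM D e := by
  obtain ⟨l, D', r1, r2, r3⟩ := h
  exact ⟨k + l, D', by omega, r2, hm.trans r3⟩

theorem caseBM {D : Code} {e : List Pass} (hG : Good D e) {m : ℕ → ℕ}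
    (hm : Matching (passes D ++ e) m) (hN : NullR D e m) {C : List Pass × ℕ} (hC : C ∈ D)
    {a c : List Pass} {p q : Pass} (h : C.1 = a ++ p :: q :: c) (h0 : m p.crossing ≠ p.crossing)
    (h1 : q.crossing = m p.crossing) (h2 : q.isOver = p.isOver) : RedM D e := by
  have hD := hG.cl
  have hp : p ∈ passes D := mem_passes.2 ⟨C, hC, by simp [h]⟩
  have hpq : p.crossing ≠ q.crossing := by rw [h1]; exact Ne.symm h0
  obtain ⟨⟨w, b⟩, hC', hpC'⟩ := mem_passes.1 (hD.1.1 p hp)
  obtain ⟨D₁, D₂, rfl⟩ := List.append_of_mem hC'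
  obtain ⟨x, v, rfl⟩ := List.append_of_mem hpC'
  have hperm : (D₁ ++ (x ++ p.mate :: v, b) :: D₂).Perm ((x ++ p.mate :: v, b) :: (D₁ ++ D₂)) :=
    List.perm_middle
  have g1 := good_perm hperm hG
  have g2 : Good ((p.mate :: v ++ x, b) :: (D₁ ++ D₂)) e := good_rotate g1
  have n1 := nullR_perm hperm hN
  have n2 := nullR_rotate n1
  have m1 := matching_congr (fun r => ((passes_perm hperm).append_right e).mem_iff) hm
  have hperm2 := perm_rotate x (p.mate :: v) b (D₁ ++ D₂)
  have m2 := matching_congr (fun r => (hperm2.append_right e).mem_iff) m1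
  have hfac : ∃ C' ∈ ((p.mate :: (v ++ x), b) :: (D₁ ++ D₂)), ∃ a' c',
      C'.1 = a' ++ p :: q :: c' := by
    rcases List.mem_cons.1 (hperm.subset hC) with rfl | hC
    · have k1 : p.mate ≠ p := by intro h; simpa using congrArg Pass.isOver h
      have k2 : p.mate ≠ q := fun h => hpq (congrArg Pass.crossing h : p.mate.crossing = q.crossing)
      rcases fac_mid h k1 k2 with ⟨a', c', h⟩ | ⟨a', c', h⟩
      · exact ⟨_, List.mem_cons_self, p.mate :: (v ++ a'), c', by simp [h]⟩
      · exact ⟨_, List.mem_cons_self, p.mate :: a', c' ++ x, by simp [h]⟩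
    · exact ⟨C, List.mem_cons_of_mem _ hC, a, c, h⟩
  obtain ⟨C', hC', a', c', h'⟩ := hfac
  refine redM_of_mono (k := 0) (.perm hperm (.rotate x (p.mate :: v) b (D₁ ++ D₂) (.refl _))) ?_
    (caseBM' (p := p.mate) (q := q.mate) g2 m2 n2 hC' (a := a')
      (c := c') (by simpa using h') h0 h1 (by simp [h2]))
  rw [(passes_perm hperm).length_eq, hperm2.length_eq]

theorem cancM {D : Code} {e : List Pass} (hG : Good D e) {m : ℕ → ℕ}
    (hm : Matching (passes D ++ e) m) (hN : NullR D e m) {C : List Pass × ℕ} (hC : C ∈ D)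
    {a c : List Pass} {p q : Pass} (h : C.1 = a ++ p :: q :: c) (hpq : Canc m p q) : RedM D e := by
  rcases hpq with ⟨-, h3, h4⟩ | ⟨h2, h3, h4⟩
  · exact caseAM hG hC h h3 h4
  · exact caseBM hG hm hN hC h h2 h3 h4

theorem redCM {p q : Pass} {y z : List Pass} {R : Code} {e : List Pass}
    (hG : Good ((p :: (y ++ q :: z), 0) :: R) e) {m : ℕ → ℕ}
    (hm : Matching (passes ((p :: (y ++ q :: z), 0) :: R) ++ e) m)
    (hN : NullR ((p :: (y ++ q :: z), 0) :: R) e m) (hpq : Canc m p q) :
    RedM ((p :: (y ++ q :: z), 0) :: R) e := by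
  have hpP : p ∈ passes ((p :: (y ++ q :: z), 0) :: R) ++ e := by simp
  have hqP : q ∈ passes ((p :: (y ++ q :: z), 0) :: R) ++ e := by simp
  have hyP : ∀ r ∈ y, r ∈ passes ((p :: (y ++ q :: z), 0) :: R) ++ e := fun r hr => by simp [hr]
  have hzP : ∀ r ∈ z, r ∈ passes ((p :: (y ++ q :: z), 0) :: R) ++ e := fun r hr => by simp [hr]
  have hnd := WF.nodup hG.wf
  have hqy : (q ∉ y ∧ q ∉ z ∧ p ∉ y ∧ p ∉ z) ∧ p ∉ e ∧ q ∉ e := by
    have h3 : (p :: (y ++ q :: z) ++ (passes R ++ e)).Nodup := by simpa using hnd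
    rw [List.cons_append, List.nodup_cons, List.append_assoc, List.nodup_append] at h3
    obtain ⟨h3, h4, h5, h6⟩ := h3
    rw [List.cons_append, List.nodup_cons] at h5
    exact ⟨⟨fun h => h6 q h q (by simp) rfl, fun h => h5.1 (by simp [h]), fun h => h3 (by simp [h]),
      fun h => h3 (by simp [h])⟩, fun h => h3 (by simp [h]), fun h => h5.1 (by simp [h])⟩
  obtain ⟨⟨hqy1, hqz, hpy, hpz⟩, hpe, hqe⟩ := hqy
  obtain ⟨o', u', v1, v2, v3, v4⟩ := exists_twist hG.wf hm hpP hqP hpq
    (Equiv.sumComm _ _ : Equiv.Perm (FreeGroup (ℕ × Bool) ⊕ FreeGroup (ℕ × Bool)))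
    (valid_map (lft _) (valid_letter hm))
  have hval : ∀ w : List Pass, (∀ r ∈ w, r ∈ passes ((p :: (y ++ q :: z), 0) :: R) ++ e) → p ∉ w →
      q ∉ w → wval o' u' w = lft _ (wval (fo m) (fu m) w) := by
    intro w hw hpw hqw
    rw [← wval_map]
    exact wval_congr fun r hr => v4 r (hw r hr) (fun h => hpw (h ▸ hr)) (fun h => hqw (h ▸ hr))
  have h3 := (hN _ o' u' v1 _ List.mem_cons_self).2 rfl
  simp only [wval_cons, wval_append] at h3
  rw [hval y hyP hpy hqy1, hval z hzP hpz hqz, hval e (fun r hr => List.mem_append_right _ hr) hpe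
    hqe, v2, v3, ← mul_assoc, ← mul_assoc] at h3
  rcases fix_of_conj h3 with hY | hZ
  · by_cases hy0 : y = []
    · subst hy0
      exact cancM hG hm hN (C := (p :: ([] ++ q :: z), 0)) (by simp) (a := []) (c := z) (p := p)
        (q := q) (by simp) hpq
    · obtain ⟨a, c, p₁, q₁, h4, h5⟩ := exists_canc hm hy0 hyP hY
      exact cancM hG hm hN (C := (p :: (y ++ q :: z), 0)) (by simp) (a := p :: a)
        (c := c ++ q :: z) (p := p₁) (q := q₁) (by simp [h4]) h5
  · by_cases hz0 : z = []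
    · subst hz0
      have hG' : Good (([q] ++ (p :: y), 0) :: R) e :=
        good_rotate (x := p :: y) (y := [q]) (by simpa using hG)
      have hN' : NullR (([q] ++ (p :: y), 0) :: R) e m :=
        nullR_rotate (x := p :: y) (y := [q]) (by simpa using hN)
      have hperm : (passes ((p :: (y ++ [q]), 0) :: R)).Perm (passes (([q] ++ (p :: y), 0) :: R)) :=
        perm_rotate (p :: y) [q] 0 R
      have hm' := matching_congr (fun r => (hperm.append_right e).mem_iff) hm
      refine redM_of_mono (k := 0) (.rotate (p :: y) [q] 0 R (.refl _))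
        hperm.symm.length_eq (cancM hG' hm' hN' (C := ([q] ++ (p :: y), 0)) (by simp) (a := [])
          (c := y) (p := q) (q := p) (by simp) (hpq.symm hm hpP))
    · obtain ⟨a, c, p₁, q₁, h4, h5⟩ := exists_canc hm hz0 hzP hZ
      exact cancM hG hm hN (C := (p :: (y ++ q :: z), 0)) (by simp) (a := p :: (y ++ q :: a))
        (c := c) (p := p₁) (q := q₁) (by simp [h4]) h5

theorem reduceRM {D : Code} {e : List Pass} (hG : Good D e) : RedM D e ∨ Term D e := by
  obtain ⟨m, hm, hN⟩ := nullR_of_inv hG.nd hG.inv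
  by_cases h1 : ∃ C ∈ D, C.2 ≠ 0 ∧ C.1 ≠ []
  · left
    obtain ⟨C, hC, h2, h3⟩ := h1
    obtain ⟨a, c, p, q, h4, h5⟩ := exists_canc hm h3
      (fun r hr => List.mem_append_left _ (mem_passes.2 ⟨C, hC, hr⟩))
      ((hN _ _ _ (valid_letter hm) C hC).1 h2)
    exact cancM hG hm hN hC h4 h5
  · push Not at h1
    by_cases h2 : ∃ p ∈ passes D, ∃ q ∈ passes D, m p.crossing = q.crossing
    · left
      obtain ⟨p, hp, q, hq, hpq⟩ := h2
      obtain ⟨q', hq', hc, hne⟩ : ∃ q' ∈ passes D, Canc m p q' ∧ q' ≠ p := by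
        by_cases hmp : m p.crossing = p.crossing
        · exact ⟨p.mate, hG.cl.1.1 p hp, Or.inl ⟨hmp, rfl, rfl⟩,
            fun h => by simpa using congrArg Pass.isOver h⟩
        · by_cases ho : q.isOver = p.isOver
          · exact ⟨q, hq, Or.inr ⟨hmp, hpq.symm, ho⟩, fun h => hmp (by rw [hpq, h])⟩
          · refine ⟨q.mate, hG.cl.1.1 q hq, Or.inr ⟨hmp, hpq.symm, ?_⟩,
              fun h => hmp (by rw [hpq]; exact (congrArg Pass.crossing h : q.mate.crossing = _))⟩
            simp only [mate_isOver]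
            cases k3 : q.isOver <;> cases k4 : p.isOver <;> simp_all
      obtain ⟨C, hC, hpC⟩ := mem_passes.1 hp
      obtain ⟨C', hC', hqC'⟩ := mem_passes.1 hq'
      have c1 : C.2 = 0 := by
        by_contra h
        rw [h1 C hC h] at hpC; simp at hpC
      have c2 : C'.2 = 0 := by
        by_contra h
        rw [h1 C' hC' h] at hqC'; simp at hqC'
      have c3 : C' = C := List.inj_on_of_nodup_map hG.nd hC' hC (by rw [c1, c2])
      subst c3
      obtain ⟨w, b⟩ := C'
      simp only at c1 c2 hpC hqC'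
      subst c1
      obtain ⟨D₁, D₂, rfl⟩ := List.append_of_mem hC'
      obtain ⟨x, v, rfl⟩ := List.append_of_mem hpC
      have hqv : q' ∈ v ++ x := by
        simp only [List.mem_append, List.mem_cons] at hqC' ⊢
        tauto
      obtain ⟨y, z, hyz⟩ := List.append_of_mem hqv
      have hperm : (D₁ ++ (x ++ p :: v, 0) :: D₂).Perm ((x ++ p :: v, 0) :: (D₁ ++ D₂)) :=
        List.perm_middle
      have g1 := good_perm hperm hG
      have g2 : Good ((p :: v ++ x, 0) :: (D₁ ++ D₂)) e := good_rotate g1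
      have n1 := nullR_perm hperm hN
      have n2 : NullR ((p :: v ++ x, 0) :: (D₁ ++ D₂)) e m := nullR_rotate n1
      have m1 := matching_congr (fun r => ((passes_perm hperm).append_right e).mem_iff) hm
      have hperm2 := perm_rotate x (p :: v) 0 (D₁ ++ D₂)
      have m2 := matching_congr (fun r => (hperm2.append_right e).mem_iff) m1
      have hw : p :: v ++ x = p :: (y ++ q' :: z) := by rw [← hyz]; rfl
      have key : RedM ((p :: v ++ x, 0) :: (D₁ ++ D₂)) e := by
        rw [hw] at g2 n2 m2 ⊢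
        exact redCM g2 m2 n2 hc
      refine redM_of_mono (k := 0) (.perm hperm (.rotate x (p :: v) 0 (D₁ ++ D₂) (.refl _))) ?_ key
      rw [(passes_perm hperm).length_eq, hperm2.length_eq]
    · right
      push Not at h2
      exact ⟨h1, m, hm, hN, h2⟩

theorem deathsM {w : List Pass} {R : Code} (hR : ∀ C ∈ R, C.1 = [])
    (hn : (((w, 0) :: R).map Prod.snd).Nodup) (hc : Classical ((w, 0) :: R)) :
    Mono 0 ((w, 0) :: R) [(w, 0)] ∧ Classical [(w, 0)] := by
  induction R with
  | nil => exact ⟨.refl _, hc⟩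
  | cons C R ih =>
    obtain ⟨v, b⟩ := C
    have hv : v = [] := hR (v, b) (by simp)
    subst hv
    have c1 : Classical (([], b) :: (w, 0) :: R) := classical_perm (List.Perm.swap _ _ _) hc
    have c2 : Classical ((w, 0) :: R) := classical_drop c1
    simp only [List.map_cons, List.nodup_cons, List.mem_cons, not_or] at hn
    obtain ⟨i1, i2⟩ := ih (fun C hC => hR C (by simp [hC])) (by
      simp only [List.map_cons, List.nodup_cons]
      exact ⟨hn.1.2, hn.2.2⟩) c2
    refine ⟨.perm (List.Perm.swap _ _ _) (.death b _ (fun C hC h => ?_) i1), i2⟩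
    rcases List.mem_cons.1 hC with rfl | hC
    · exact hn.1.1 h
    · exact hn.2.1 (by rw [← h]; exact List.mem_map_of_mem (f := Prod.snd) hC)

/-- removal of the trivial components -/
theorem finishM {D : Code} {e : List Pass} (hG : Good D e) (hT : Term D e) :
    ∃ w, Mono 0 D [(w, 0)] ∧ Good [(w, 0)] e ∧ (passes D).Perm w := by
  obtain ⟨⟨w, b⟩, hC, h0⟩ := hG.zero
  simp only at h0
  subst h0
  obtain ⟨D₁, D₂, rfl⟩ := List.append_of_mem hC
  have hperm : (D₁ ++ (w, 0) :: D₂).Perm ((w, 0) :: (D₁ ++ D₂)) := List.perm_middle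
  have g1 := good_perm hperm hG
  have hn := g1.nd
  simp only [List.map_cons, List.nodup_cons] at hn
  have hR : ∀ C ∈ D₁ ++ D₂, C.1 = [] := by
    intro C hC
    refine hT.1 C (hperm.symm.subset (List.mem_cons_of_mem _ hC)) fun h => hn.1 ?_
    rw [← h]; exact List.mem_map_of_mem (f := Prod.snd) hC
  have hp : passes (D₁ ++ D₂) = [] := by
    rw [List.eq_nil_iff_forall_not_mem]
    intro p hp
    obtain ⟨C, hC, hp⟩ := mem_passes.1 hp
    rw [hR C hC] at hp; simp at hp
  obtain ⟨h1, h2⟩ := deathsM hR g1.nd g1.cl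
  have hpp : (passes (D₁ ++ (w, 0) :: D₂)).Perm w := by
    refine (passes_perm hperm).trans ?_
    rw [passes_cons, hp, List.append_nil]
  have hWe : WF (passes [(w, 0)] ++ e) := by
    have := g1.wf
    rw [passes_cons, hp, List.append_nil] at this
    simpa using this
  refine ⟨w, .perm hperm h1, ⟨h2, by simp, ⟨(w, 0), by simp, rfl⟩,
    hWe, ?_⟩, hpp⟩
  have hI := g1.inv
  rw [inv_def] at hI ⊢
  obtain ⟨m, hm, hN⟩ := hI
  have he : ∀ r, r ∈ passes ((w, 0) :: (D₁ ++ D₂) ++ [(e, 0)]) ↔ r ∈ passes ([(w, 0)] ++ [(e, 0)]) := by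
    intro r
    rw [passes_append, passes_append, passes_cons, hp]
    simp
  refine ⟨m, matching_congr he hm, fun G _ o u hv b => ?_⟩
  have := hN G o u (valid_congr (fun r => (he r).symm) hv) b
  rw [vals_append, bv_append] at this ⊢
  by_cases hb : b = 0
  · subst hb
    have e1 : bv (vals o u ((w, 0) :: (D₁ ++ D₂))) 0 = [wval o u w] :=
      bv_vals_singleton g1.nd (C := (w, 0)) (by simp)
    have e2 : bv (vals o u [(w, 0)]) 0 = [wval o u w] := by simp [vals, bv_cons]
    rw [e2, ← e1]; exact this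
  · have e1 : bv (vals o u [(w, 0)]) b = [] := by
      simp only [vals, List.map_cons, List.map_nil, bv_cons, bv_nil]
      rw [if_neg (fun h : (0 : ℕ) = b => hb h.symm)]
    have e2 : bv (vals o u [(e, 0)]) b = [] := by
      simp only [vals, List.map_cons, List.map_nil, bv_cons, bv_nil]
      rw [if_neg (fun h : (0 : ℕ) = b => hb h.symm)]
    rw [e1, e2]; exact PC.nil

/-- reduction to a knot -/
theorem reduceAllM {e : List Pass} (n : ℕ) : ∀ D : Code, (passes D).length ≤ n → Good D e →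
    ∃ k w, Mono k D [(w, 0)] ∧ Good [(w, 0)] e ∧ w.length ≤ (passes D).length := by
  induction n with
  | zero =>
    intro D hl hG
    rcases reduceRM hG with ⟨-, D', h1, -⟩ | hT
    · omega
    · obtain ⟨w, h1, h2, h3⟩ := finishM hG hT
      exact ⟨0, w, h1, h2, h3.length_eq.ge⟩
  | succ n ih =>
    intro D hl hG
    rcases reduceRM hG with ⟨k, D', h1, h2, h3⟩ | hT
    · obtain ⟨l, w, h4, h5, h6⟩ := ih D' (by omega) h2
      exact ⟨k + l, w, h3.trans h4, h5, by omega⟩
    · obtain ⟨w, h1, h2, h3⟩ := finishM hG hT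
      exact ⟨0, w, h1, h2, h3.length_eq.ge⟩

/-- one knot is reduced relative to another one, or it can be reduced -/
theorem reduceKnotM {k e : List Pass} (hG : Good [(k, 0)] e) : Term [(k, 0)] e ∨
    ∃ s w, w.length < k.length ∧ Mono s [(k, 0)] [(w, 0)] ∧ Good [(w, 0)] e := by
  rcases reduceRM hG with ⟨s, D', h1, h2, h3⟩ | hT
  · right
    obtain ⟨l, w, h4, h5, h6⟩ := reduceAllM _ D' le_rfl h2
    refine ⟨s + l, w, ?_, h3.trans h4, h5⟩
    simp only [passes_cons, passes_nil, List.append_nil] at h1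
    omega
  · exact Or.inl hT


end Pool.Agent.Q127.MS
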