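import Mathlib

/-! Conjugate elements of a free group: words representing them have equal rotations. -/

namespace Pool.Agent.Q127.MS

open FreeGroup

variable {α : Type}

theorem isReduced_iff' {w : List (α × Bool)} :
    IsReduced w ↔ w.IsChain (fun a b => a.1 = b.1 → a.2 = b.2) := Iff.rfl

theorem cr_rot1 {a : α × Bool} {w : List (α × Bool)} :
    IsCyclicallyReduced (a :: w) ↔ IsCyclicallyReduced (w ++ [a]) := by
  rcases List.eq_nil_or_concat w with rfl | ⟨v, z, rfl⟩
  · simp
  rw [List.concat_eq_append]
  rcases v with _ | ⟨c, v⟩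
  · simp only [List.nil_append, List.singleton_append, IsCyclicallyReduced, isReduced_iff',
      List.isChain_cons_cons, List.isChain_singleton, and_true, List.getLast?_cons_cons,
      List.getLast?_singleton, List.head?_cons, Option.mem_def, Option.some.injEq, forall_eq']
    tauto
  · have e1 : a :: (c :: v ++ [z]) = a :: (c :: v) ++ [z] := rfl
    have e2 : c :: v ++ [z] ++ [a] = c :: (v ++ [z]) ++ [a] := by simp
    rw [e1, e2, isCyclicallyReduced_cons_append_iff, isCyclicallyReduced_cons_append_iff,
      isReduced_iff', isReduced_iff']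
    have e3 : a :: (c :: v) ++ [z] = a :: (c :: v ++ [z]) := rfl
    have e4 : c :: (v ++ [z]) ++ [a] = (c :: v ++ [z]) ++ [a] := by simp
    rw [e3, e4, List.isChain_append (l₂ := [a])]
    have e5 : List.IsChain (fun a b : α × Bool => a.1 = b.1 → a.2 = b.2) (a :: (c :: v ++ [z])) ↔
        (a.1 = c.1 → a.2 = c.2) ∧
          List.IsChain (fun a b : α × Bool => a.1 = b.1 → a.2 = b.2) (c :: v ++ [z]) := by
      rw [List.cons_append, List.isChain_cons_cons]
    rw [e5]
    have e6 : (c :: v ++ [z]).getLast? = some z := List.getLast?_concat ..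
    rw [e6]
    simp only [Option.mem_def, Option.some.injEq, List.head?_cons, forall_eq',
      List.isChain_singleton, true_and]
    constructor
    · rintro ⟨⟨h1, h2⟩, h3⟩
      exact ⟨⟨h2, h3⟩, h1⟩
    · rintro ⟨⟨h2, h3⟩, h1⟩
      exact ⟨⟨h1, h2⟩, h3⟩

theorem cr_rotated {w w' : List (α × Bool)} (h : w ~r w') (hw : IsCyclicallyReduced w) :
    IsCyclicallyReduced w' := by
  obtain ⟨n, rfl⟩ := h
  induction n with
  | zero => rwa [List.rotate_zero]
  | succ n ih =>
    rw [← List.rotate_rotate]
    generalize w.rotate n = v at ih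
    cases v with
    | nil => simpa using ih
    | cons a v =>
      rw [List.rotate_cons_succ, List.rotate_zero]
      exact cr_rot1.1 ih

theorem mk_cancel (a b : List (α × Bool)) (x : α × Bool) :
    FreeGroup.mk (a ++ [x, (x.1, !x.2)] ++ b) = FreeGroup.mk (a ++ b) := by
  obtain ⟨x, e⟩ := x
  refine Quot.sound ?_
  have := FreeGroup.Red.Step.not (L₁ := a) (L₂ := b) (x := x) (b := e)
  simpa using this

/-- each word has a cyclically reduced form all of whose rotations are values of its rotations -/
theorem exists_cr (n : ℕ) : ∀ w : List (α × Bool), w.length ≤ n →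
    ∃ c, IsCyclicallyReduced c ∧ ∀ c', c ~r c' → ∃ w', w ~r w' ∧ FreeGroup.mk w' = FreeGroup.mk c' := by
  induction n with
  | zero =>
    intro w hw
    have : w = [] := List.eq_nil_of_length_eq_zero (by omega)
    subst this
    exact ⟨[], by simp, fun c' h => ⟨c', h, rfl⟩⟩
  | succ n ih =>
    intro w hw
    by_cases hr : IsReduced w
    · by_cases hc : IsCyclicallyReduced w
      · exact ⟨w, hc, fun c' h => ⟨c', h, rfl⟩⟩
      · -- the first and the last letter cancel
        rcases w with _ | ⟨x, w⟩
        · exact absurd (by simp) hc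
        rcases List.eq_nil_or_concat w with rfl | ⟨v, z, rfl⟩
        · exact absurd (by simp) hc
        rw [List.concat_eq_append] at *
        have e1 : x :: (v ++ [z]) = x :: v ++ [z] := rfl
        rw [e1, isCyclicallyReduced_cons_append_iff] at hc
        have hz : z.1 = x.1 ∧ z.2 ≠ x.2 := by
          by_contra h
          exact hc ⟨hr, fun h1 => by
            by_contra h2
            exact h ⟨h1, h2⟩⟩
        have hx : x = (z.1, !z.2) := by
          obtain ⟨x1, x2⟩ := x
          obtain ⟨z1, z2⟩ := z
          simp only at hz ⊢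
          obtain ⟨h0, h⟩ := hz
          rw [Prod.mk.injEq]
          refine ⟨h0.symm, ?_⟩
          cases x2 <;> cases z2 <;> first | rfl | exact absurd rfl h
        obtain ⟨c, h1, h2⟩ := ih v (by simp at hw; omega)
        refine ⟨c, h1, fun c' hc' => ?_⟩
        obtain ⟨w', h3, h4⟩ := h2 c' hc'
        obtain ⟨m, hm, rfl⟩ := List.isRotated_iff_mod.1 h3
        rw [List.rotate_eq_drop_append_take hm] at h4
        refine ⟨v.drop m ++ [z, (z.1, !z.2)] ++ v.take m, ?_, ?_⟩
        · have e2 : x :: (v ++ [z]) = ([x] ++ v.take m) ++ (v.drop m ++ [z]) := by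
            conv_lhs => rw [← List.take_append_drop m v]
            simp only [List.append_assoc, List.cons_append, List.nil_append]
          rw [e2]
          have e3 : v.drop m ++ [z, (z.1, !z.2)] ++ v.take m =
              (v.drop m ++ [z]) ++ ([x] ++ v.take m) := by rw [hx]; simp
          rw [e3]
          exact List.isRotated_append
        · rw [mk_cancel, h4]
    · -- two adjacent letters cancel
      rw [isReduced_iff', List.isChain_iff_forall_rel_of_append_cons_cons] at hr
      push Not at hr
      obtain ⟨z, x, l₁, l₂, rfl, h1, h2⟩ := hr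
      have hx : x = (z.1, !z.2) := by
        obtain ⟨x1, x2⟩ := x
        obtain ⟨z1, z2⟩ := z
        simp only at h1 h2 ⊢
        subst h1
        rw [Prod.mk.injEq]
        exact ⟨rfl, by cases x2 <;> cases z2 <;> simp_all⟩
      obtain ⟨c, h3, h4⟩ := ih (l₁ ++ l₂) (by simp at hw ⊢; omega)
      refine ⟨c, h3, fun c' hc' => ?_⟩
      obtain ⟨w', h5, h6⟩ := h4 c' hc'
      obtain ⟨m, hm, rfl⟩ := List.isRotated_iff_mod.1 h5
      rw [List.rotate_eq_drop_append_take hm] at h6
      rcases le_total m l₁.length with hl | hl
      · have e1 : (l₁ ++ l₂).drop m = l₁.drop m ++ l₂ := List.drop_append_of_le_length hl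
        have e2 : (l₁ ++ l₂).take m = l₁.take m := List.take_append_of_le_length hl
        rw [e1, e2] at h6
        refine ⟨l₁.drop m ++ [z, (z.1, !z.2)] ++ (l₂ ++ l₁.take m), ?_, ?_⟩
        · have e3 : l₁ ++ z :: x :: l₂ = l₁.take m ++ (l₁.drop m ++ ([z, x] ++ l₂)) := by
            conv_lhs => rw [← List.take_append_drop m l₁]
            simp only [List.append_assoc, List.cons_append, List.nil_append]
          have e4 : l₁.drop m ++ [z, (z.1, !z.2)] ++ (l₂ ++ l₁.take m) =
              (l₁.drop m ++ ([z, x] ++ l₂)) ++ l₁.take m := by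
            rw [hx]; simp only [List.append_assoc]
          rw [e3, e4]
          exact List.isRotated_append
        · rw [mk_cancel, ← h6, List.append_assoc]
      · have e1 : (l₁ ++ l₂).drop m = l₂.drop (m - l₁.length) := by
          rw [List.drop_append, List.drop_eq_nil_of_le hl, List.nil_append]
        have e2 : (l₁ ++ l₂).take m = l₁ ++ l₂.take (m - l₁.length) := by
          rw [List.take_append, List.take_of_length_le hl]
        rw [e1, e2] at h6
        generalize m - l₁.length = t at h6
        refine ⟨(l₂.drop t ++ l₁) ++ [z, (z.1, !z.2)] ++ l₂.take t, ?_, ?_⟩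
        · have e3 : l₁ ++ z :: x :: l₂ = (l₁ ++ ([z, x] ++ l₂.take t)) ++ l₂.drop t := by
            conv_lhs => rw [← List.take_append_drop t l₂]
            simp only [List.append_assoc, List.cons_append, List.nil_append]
          have e4 : (l₂.drop t ++ l₁) ++ [z, (z.1, !z.2)] ++ l₂.take t =
              l₂.drop t ++ (l₁ ++ ([z, x] ++ l₂.take t)) := by
            rw [hx]; simp only [List.append_assoc]
          rw [e3, e4]
          exact List.isRotated_append
        · rw [mk_cancel, ← h6, List.append_assoc]

theorem reduced_eq {c d : List (α × Bool)} (hc : IsReduced c) (hd : IsReduced d)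
    (h : FreeGroup.mk c = FreeGroup.mk d) : c = d := by
  classical
  have h1 := FreeGroup.reduce.sound h
  rwa [hc.reduce_eq, hd.reduce_eq] at h1

/-- conjugate cyclically reduced words -/
theorem cr_conj (n : ℕ) : ∀ (v c d : List (α × Bool)), v.length ≤ n → IsReduced v →
    IsCyclicallyReduced c → IsCyclicallyReduced d →
    FreeGroup.mk c = FreeGroup.mk v * FreeGroup.mk d * (FreeGroup.mk v)⁻¹ → c ~r d := by
  induction n with
  | zero =>
    intro v c d hv _ hc hd h
    have : v = [] := List.eq_nil_of_length_eq_zero (by omega)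
    subst this
    rw [← FreeGroup.one_eq_mk, one_mul, inv_one, mul_one] at h
    rw [reduced_eq hc.1 hd.1 h]
  | succ n ih =>
    intro v c d hv hvr hc hd h
    rcases List.eq_nil_or_concat v with rfl | ⟨v, y, rfl⟩
    · exact ih [] c d (by simp) (by simp) hc hd h
    rw [List.concat_eq_append] at *
    rcases d with _ | ⟨x, d⟩
    · rw [← FreeGroup.one_eq_mk, mul_one, mul_inv_cancel, FreeGroup.one_eq_mk] at h
      rw [reduced_eq hc.1 (by simp) h]
    have hvr' : IsReduced v := by
      rw [isReduced_iff', List.isChain_append] at hvr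
      exact hvr.1
    have hlen : v.length ≤ n := by simp at hv; omega
    obtain ⟨y', hy'⟩ : ∃ y' : α × Bool, y' = (y.1, !y.2) := ⟨_, rfl⟩
    have hinv : (FreeGroup.mk [y])⁻¹ = FreeGroup.mk [y'] := by
      rw [FreeGroup.inv_mk, hy']; rfl
    rw [← FreeGroup.mul_mk, mul_inv_rev, hinv] at h
    have hyy : FreeGroup.mk [y] * FreeGroup.mk [y'] = 1 := by rw [← hinv, mul_inv_cancel]
    have hyy' : FreeGroup.mk [y'] * FreeGroup.mk [y] = 1 := by rw [← hinv, inv_mul_cancel]
    by_cases h1 : x = y'
    · refine (ih v c (d ++ [x]) hlen hvr' hc (cr_rot1.1 hd) ?_).trans ?_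
      · rw [h]
        have e1 : FreeGroup.mk (x :: d) = FreeGroup.mk [x] * FreeGroup.mk d := by
          rw [FreeGroup.mul_mk]; rfl
        rw [e1, ← FreeGroup.mul_mk, h1]
        calc FreeGroup.mk v * FreeGroup.mk [y] * (FreeGroup.mk [y'] * FreeGroup.mk d) *
              (FreeGroup.mk [y'] * (FreeGroup.mk v)⁻¹)
            = FreeGroup.mk v * (FreeGroup.mk [y] * FreeGroup.mk [y']) * FreeGroup.mk d *
              (FreeGroup.mk [y'] * (FreeGroup.mk v)⁻¹) := by simp only [mul_assoc]
          _ = _ := by rw [hyy]; simp only [mul_assoc, mul_one]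
      · have : x :: d = [x] ++ d := rfl
        rw [this]
        exact List.isRotated_append
    · rcases List.eq_nil_or_concat (x :: d) with h0 | ⟨d', z, h2⟩
      · simp at h0
      rw [List.concat_eq_append] at h2
      rw [h2] at h hd ⊢
      by_cases h3 : z = y
      · subst h3
        refine (ih v c (z :: d') hlen hvr' hc (cr_rot1.2 hd) ?_).trans ?_
        · rw [h]
          have e1 : FreeGroup.mk (z :: d') = FreeGroup.mk [z] * FreeGroup.mk d' := by
            rw [FreeGroup.mul_mk]; rfl
          rw [e1, ← FreeGroup.mul_mk]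
          calc FreeGroup.mk v * FreeGroup.mk [z] * (FreeGroup.mk d' * FreeGroup.mk [z]) *
                (FreeGroup.mk [y'] * (FreeGroup.mk v)⁻¹)
              = FreeGroup.mk v * FreeGroup.mk [z] * FreeGroup.mk d' *
                (FreeGroup.mk [z] * FreeGroup.mk [y']) * (FreeGroup.mk v)⁻¹ := by
                simp only [mul_assoc]
            _ = _ := by rw [hyy]; simp only [mul_assoc, mul_one]
        · have : z :: d' = [z] ++ d' := rfl
          rw [this]
          exact List.isRotated_append
      · -- the word of the right hand side is reduced, not cyclically reduced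
        exfalso
        have hW : FreeGroup.mk c =
            FreeGroup.mk ((v ++ [y]) ++ (d' ++ [z]) ++ FreeGroup.invRev (v ++ [y])) := by
          rw [← FreeGroup.mul_mk (L₁ := v ++ [y] ++ (d' ++ [z])),
            ← FreeGroup.mul_mk (L₁ := v ++ [y]) (L₂ := d' ++ [z]), ← FreeGroup.inv_mk,
            ← FreeGroup.mul_mk (L₁ := v), mul_inv_rev, hinv, h]
        have hred : IsReduced ((v ++ [y]) ++ (d' ++ [z]) ++ FreeGroup.invRev (v ++ [y])) := by
          have r1 : IsReduced (FreeGroup.invRev (v ++ [y])) := by
            classical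
            have := FreeGroup.reduce_invRev (w := v ++ [y])
            rw [hvr.reduce_eq] at this
            exact FreeGroup.IsReduced.of_reduce_eq this
          rw [isReduced_iff', List.isChain_append, List.isChain_append]
          refine ⟨⟨hvr, hd.1, ?_⟩, r1, ?_⟩
          · intro a ha b hb
            rw [List.getLast?_concat, Option.mem_def, Option.some.injEq] at ha
            rw [← h2, List.head?_cons, Option.mem_def, Option.some.injEq] at hb
            subst ha; subst hb
            intro h5
            by_contra h6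
            refine h1 ?_
            rw [hy']
            obtain ⟨x1, x2⟩ := x
            obtain ⟨y1, y2⟩ := y
            simp only at h5 h6 ⊢
            rw [Prod.mk.injEq]
            exact ⟨h5.symm, by cases x2 <;> cases y2 <;> simp_all⟩
          · intro a ha b hb
            rw [← List.append_assoc, List.getLast?_concat, Option.mem_def,
              Option.some.injEq] at ha
            have hb' : (FreeGroup.invRev (v ++ [y])).head? = some y' := by
              rw [hy']; simp [FreeGroup.invRev]
            rw [hb', Option.mem_def, Option.some.injEq] at hb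
            subst ha; subst hb
            rw [hy']
            intro h5
            by_contra h6
            refine h3 ?_
            obtain ⟨x1, x2⟩ := z
            obtain ⟨y1, y2⟩ := y
            simp only at h5 h6 ⊢
            rw [Prod.mk.injEq]
            exact ⟨h5, by cases x2 <;> cases y2 <;> simp_all⟩
        have hcW := reduced_eq hc.1 hred hW
        rw [hcW] at hc
        obtain ⟨a, w, hw⟩ : ∃ a w, v ++ [y] = a :: w := by
          cases v with
          | nil => exact ⟨y, [], rfl⟩
          | cons a v => exact ⟨a, v ++ [y], rfl⟩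
        rw [hw] at hc
        have hl : FreeGroup.invRev (a :: w) = FreeGroup.invRev w ++ [(a.1, !a.2)] := by
          simp [FreeGroup.invRev]
        rw [hl, ← List.append_assoc] at hc
        have := hc.2 (a.1, !a.2) (by rw [List.getLast?_concat]; rfl) a (by simp) rfl
        simp at this

/-- **Words representing conjugate elements of a free group have rotations which represent the same
element.** -/
theorem conj_rotations {v w : List (α × Bool)} {g : FreeGroup α}
    (h : FreeGroup.mk v = g * FreeGroup.mk w * g⁻¹) :
    ∃ v' w', v ~r v' ∧ w ~r w' ∧ FreeGroup.mk v' = FreeGroup.mk w' := by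
  classical
  obtain ⟨c, hc, h1⟩ := exists_cr v.length v le_rfl
  obtain ⟨d, hd, h2⟩ := exists_cr w.length w le_rfl
  have key : ∀ (u u' : List (α × Bool)), u ~r u' → ∃ g : FreeGroup α,
      FreeGroup.mk u = g * FreeGroup.mk u' * g⁻¹ := by
    intro u u' hu
    obtain ⟨m, hm, rfl⟩ := List.isRotated_iff_mod.1 hu
    refine ⟨FreeGroup.mk (u.take m), ?_⟩
    rw [List.rotate_eq_drop_append_take hm, FreeGroup.inv_mk]
    conv_lhs => rw [← List.take_append_drop m u]
    rw [← FreeGroup.mul_mk, ← FreeGroup.mul_mk, ← FreeGroup.inv_mk]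
    group
  obtain ⟨v', a1, a2⟩ := h1 c (List.IsRotated.refl c)
  obtain ⟨w', b1, b2⟩ := h2 d (List.IsRotated.refl d)
  obtain ⟨g1, e1⟩ := key v v' a1
  obtain ⟨g2, e2⟩ := key w w' b1
  have e3 : FreeGroup.mk c = (g1⁻¹ * g * g2) * FreeGroup.mk d * (g1⁻¹ * g * g2)⁻¹ := by
    rw [← a2, ← b2]
    have : FreeGroup.mk v' = g1⁻¹ * FreeGroup.mk v * g1 := by rw [e1]; group
    rw [this, h, e2]
    group
  have h3 : c ~r d := by
    refine cr_conj _ (g1⁻¹ * g * g2).toWord c d le_rfl FreeGroup.isReduced_toWord hc hd ?_
    rw [FreeGroup.mk_toWord]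
    exact e3
  obtain ⟨v'', a3, a4⟩ := h1 d h3
  exact ⟨v'', w', a3, b1, by rw [a4, b2]⟩

end Pool.Agent.Q127.MS
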