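import Pool.Agent.Y468.SR.Defs

/-!
# Monotone simplifications of link diagrams

`Mono k D E`: the diagram `D` is simplified to the diagram `E` by moves of type I removing a crossing,
deaths of components without crossings, and `k` saddles, each of which cuts one component into two and
is followed at once by a move of type II removing two crossings. All diagrams are diagrams of
classical links, and the two components created by a saddle bound different pieces of the surface, so
that the simplification is a movie of ribbon discs (or ribbon concordances) without moves of type III,
in which no diagram has more crossings than the one before.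
-/

namespace Pool.Agent.Q127.MS

open Pool.Agent.Y468.SR

/-- monotone simplification of diagrams with `k` saddles -/
inductive Mono : ℕ → Code → Code → Prop
  | refl (D : Code) : Mono 0 D D
  /-- another order of the components -/
  | perm {k : ℕ} {D D' E : Code} (h : D.Perm D') (hm : Mono k D' E) : Mono k D E
  /-- another starting point on a component -/
  | rotate {k : ℕ} {E : Code} (x y : List Pass) (b : ℕ) (R : Code)
      (hm : Mono k ((y ++ x, b) :: R) E) : Mono k ((x ++ y, b) :: R) E
  /-- other names of the crossings -/
  | rename {k : ℕ} {D E : Code} (f : ℕ → ℕ) (hf : ∀ p ∈ passes D, ∀ q ∈ passes D,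
      f p.crossing = f q.crossing → p.crossing = q.crossing) (h : Classical (renamed f D))
      (hm : Mono k (renamed f D) E) : Mono k D E
  /-- a component without crossings bounds a disc and is removed -/
  | death {k : ℕ} {E : Code} (b : ℕ) (R : Code) (hb : ∀ C ∈ R, C.2 ≠ b) (hm : Mono k R E) :
      Mono k (([], b) :: R) E
  /-- a move of type I removing a crossing -/
  | one {k : ℕ} {D D' E : Code} (A B : List (Pass ⊕ ℕ)) (p : Pass) (h : Classical D')
      (hD : enc D = A ++ two p p.mate ++ B) (hD' : enc D' = A ++ B) (hm : Mono k D' E) : Mono k D E
  /-- a saddle cutting out the part `y` of a component, followed by a move of type II removing two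
  crossings; the label `b'` of one of the two new components is new -/
  | cut {k : ℕ} {D' E : Code} (x y z : List Pass) (b b' b₁ b₂ : ℕ) (R : Code)
      (A B C : List (Pass ⊕ ℕ)) (p q : Pass) (hb' : b' ≠ b ∧ ∀ C ∈ R, C.2 ≠ b')
      (hb : (b₁ = b ∧ b₂ = b') ∨ (b₁ = b' ∧ b₂ = b))
      (h : Classical ((x ++ z, b₁) :: (y, b₂) :: R)) (h' : Classical D')
      (hpq : p.crossing ≠ q.crossing) (ho : p.isOver = q.isOver) (hs : q.isPos = !p.isPos)
      (hD : enc ((x ++ z, b₁) :: (y, b₂) :: R) = A ++ two p q ++ B ++ two p.mate q.mate ++ C)
      (hD' : enc D' = A ++ B ++ C) (hm : Mono k D' E) :
      Mono (k + 1) ((x ++ y ++ z, b) :: R) E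

/-- the Gauss codes of two knot diagrams agree up to the names of the crossings and the starting
point -/
def Same (k k' : List Pass) : Prop :=
  ∃ f : ℕ → ℕ, (∀ p ∈ k, ∀ q ∈ k, f p.crossing = f q.crossing → p.crossing = q.crossing) ∧
    (k.map fun p => (⟨f p.crossing, p.isOver, p.isPos⟩ : Pass)).IsRotated k'

/-- movies of virtual links (Gauss codes which need not be planar) without moves of type III, births
of components being allowed -/
def VirtMovie : Code → Code → Prop :=
  Relation.ReflTransGen fun D D' => WellFormed D ∧ WellFormed D' ∧ Step false true D D'

/-- the classical knots `k` and `k'` are joined by a concordance in the form of such a movie -/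
def Joined (k k' : List Pass) : Prop :=
  Classical [(k, 0)] ∧ Classical [(k', 0)] ∧ VirtMovie [(k, 0)] [(k', 0)]

/-- The letter of a passage. For each pair of different crossings `c < m c` matched by `m` there are two
letters `(c, true)`, `(c, false)`, one for the overpassages and one for the underpassages, the
passages through `c` having the exponent `1` and those through `m c` the exponent `-1`. For each
crossing `c = m c` there is one letter `(c, true)`, the exponent being `1` for the overpassage and
`-1` for the underpassage. -/
def letter (m : ℕ → ℕ) (p : Pass) : (ℕ × Bool) × Bool :=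
  if m p.crossing = p.crossing then ((p.crossing, true), p.isOver)
  else if p.crossing < m p.crossing then ((p.crossing, p.isOver), true)
  else ((m p.crossing, p.isOver), false)

/-- `m` matches the crossings of `D`, crossings of opposite signs in pairs, some crossings being left
alone, such that the word of each component is trivial in the free group. -/
def NullMatching (D : Code) (m : ℕ → ℕ) : Prop :=
  (∀ p ∈ passes D, ∃ q ∈ passes D, q.crossing = m p.crossing ∧ m q.crossing = p.crossing ∧
    (q.crossing ≠ p.crossing → q.isPos = !p.isPos)) ∧
  ∀ C ∈ D, FreeGroup.mk (C.1.map (letter m)) = 1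

end Pool.Agent.Q127.MS
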