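import Pool.Agent.Q127.MS.Cut
import Pool.Agent.Y874.TP4.Conc

/-! Monotone simplifications of knots: the simplest diagram. -/

namespace Pool.Agent.Q127.MS

open Pool.Agent.Y468.SR
open Pool.Agent.Y874.TP2.T4 (dbl_wmovie)

set_option linter.unusedSimpArgs false

theorem iso_same {k₁ k₂ : List Pass} (hG : Good [(k₁, 0)] (bar k₂)) (h₂ : Classical [(k₂, 0)])
    (hT : Term [(k₁, 0)] (bar k₂)) (hl : k₂.length ≤ k₁.length) :
    Same k₁ k₂ := by
  classical
  obtain ⟨-, m, hm, hN, hT⟩ := hT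
  have hmem := ren_mem h₂ hm hT
  have w1 : WF k₁ := by simpa [wf_iff] using wf_iff.1 hG.cl.1
  have w2 : WF k₂ := by simpa [wf_iff] using wf_iff.1 h₂.1
  have hperm : (k₁.map (ren m)).Perm k₂ :=
    (List.subperm_of_subset (ren_nodup hG hm) (fun r hr => by
      obtain ⟨p, hp, rfl⟩ := List.mem_map.1 hr
      exact hmem p hp)).perm_of_length_le (by simpa using hl)
  have hinv : ∀ p ∈ k₁, m (m p.crossing) = p.crossing := fun p hp =>
    matching_invol hm (by simp [hp])
  -- the crossings of `k₂` are matched with those of `k₁`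
  have hsurj : ∀ q ∈ k₂, ∃ p ∈ k₁, m q.crossing = p.crossing ∧ q.crossing = m p.crossing := by
    intro q hq
    obtain ⟨p, hp, rfl⟩ := List.mem_map.1 (hperm.symm.subset hq)
    exact ⟨p, hp, hinv p hp, rfl⟩
  have hdisj : ∀ q ∈ k₂, ∀ p ∈ k₁, p.crossing ≠ q.crossing := by
    intro q hq p hp h
    obtain ⟨p', hp', h1, h2⟩ := hsurj q hq
    exact hT p' (by simp [hp']) p (by simp [hp]) (by rw [h, ← h2])
  obtain ⟨x, y, hx, hy⟩ := rot hperm w2.2 (fun G _ o u => by
    obtain ⟨O, hO⟩ : ∃ O : (ℕ → G) → ℕ → G, O = fun o x =>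
      if ∃ p ∈ k₁, p.crossing = x then o (m x) else (o x)⁻¹ := ⟨_, rfl⟩
    have hO1 : ∀ o, ∀ p ∈ k₁, O o p.crossing = o (m p.crossing) := by
      intro o p hp
      rw [hO]; exact if_pos ⟨p, hp, rfl⟩
    have hO2 : ∀ o, ∀ q ∈ k₂, O o q.crossing = (o q.crossing)⁻¹ := by
      intro o q hq
      rw [hO]; exact if_neg (by rintro ⟨p, hp, h⟩; exact hdisj q hq p hp h)
    have hv : Valid (passes [(k₁, 0)] ++ bar k₂) m (O o) (O u) := by
      intro r hr
      rcases List.mem_append.1 hr with hr | hr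
      · simp only [passes_cons, passes_nil, List.append_nil] at hr
        have h1 := hmem r hr
        have h2 : ∀ o : ℕ → G, O o (m r.crossing) = (O o r.crossing)⁻¹ := by
          intro o
          rw [hO1 o r hr]; exact hO2 o _ h1
        exact ⟨fun h => absurd h (hT r (by simp [hr]) r (by simp [hr])),
          fun _ => ⟨h2 o, h2 u⟩⟩
      · have h0 := mem_bar.1 hr
        obtain ⟨p, hp, h1, h2⟩ := hsurj _ h0
        have h1' : m r.crossing = p.crossing := h1
        have h2' : r.crossing = m p.crossing := h2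
        have h3 : ∀ o : ℕ → G, O o (m r.crossing) = (O o r.crossing)⁻¹ := by
          intro o
          have h4 : O o r.crossing = (o r.crossing)⁻¹ := hO2 o (flp r) h0
          rw [h1', hO1 o p hp, h4, h2', inv_inv]
        refine ⟨fun h => ?_, fun _ => ⟨h3 o, h3 u⟩⟩
        exact absurd (h1'.symm.trans h) (hdisj _ h0 p hp)
    have h4 := (hN G (O o) (O u) hv (k₁, 0) (by simp)).2 rfl
    have h5 : ∀ w : List Pass, (∀ p ∈ w, p ∈ k₁) →
        wval (O o) (O u) w = wval o u (w.map (ren m)) := by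
      intro w hw
      induction w with
      | nil => rfl
      | cons p w ih =>
        rw [wval_cons, List.map_cons, wval_cons, ih fun q hq => hw q (by simp [hq])]
        congr 1
        unfold val
        rw [hO1 o p (hw p (by simp)), hO1 u p (hw p (by simp))]
        rfl
    have h6 : ∀ w : List Pass, (∀ p ∈ w, p ∈ k₂) →
        wval (O o) (O u) (bar w) = (wval o u w)⁻¹ := by
      intro w hw
      rw [wval_bar]
      congr 1
      refine wval_congr fun q hq => ?_
      unfold val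
      simp only [hO2 o q (hw q hq), hO2 u q (hw q hq), inv_inv]
    simp only at h4
    rw [h5 k₁ fun _ h => h, h6 k₂ fun _ h => h] at h4
    exact h4)
  refine ⟨m, fun p hp q hq h => by rw [← hinv p hp, ← hinv q hq, h], ?_⟩
  change (k₁.map (ren m)).IsRotated k₂
  rw [hx, hy]
  exact List.isRotated_append

theorem commonM (n : ℕ) : ∀ k₁ k₂ : List Pass, k₁.length + k₂.length ≤ n →
    Good [(k₁, 0)] (bar k₂) → Classical [(k₂, 0)] → ∃ (s₁ s₂ : ℕ) (j₁ j₂ : List Pass),
      Mono s₁ [(k₁, 0)] [(j₁, 0)] ∧ Mono s₂ [(k₂, 0)] [(j₂, 0)] ∧ Same j₁ j₂ := by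
  induction n with
  | zero =>
    intro k₁ k₂ hl hG h₂
    have hT : Term [(k₁, 0)] (bar k₂) := by
      rcases reduceKnotM hG with hT | ⟨s, w, hw, -⟩
      · exact hT
      · omega
    exact ⟨0, 0, k₁, k₂, .refl _, .refl _, iso_same hG h₂ hT (by omega)⟩
  | succ n ih =>
    intro k₁ k₂ hl hG h₂
    rcases reduceKnotM hG with hT | ⟨s, w, hw, hM, hG'⟩
    · have hG2 := good_symm hG h₂
      rcases reduceKnotM hG2 with hT2 | ⟨s, w, hw, hM, hG'⟩
      · exact ⟨0, 0, k₁, k₂, .refl _, .refl _,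
          iso_same hG h₂ hT (Y468.SR.length_le hG2 hG.cl hT2)⟩
      · obtain ⟨s₁, s₂, j₁, j₂, h1, h2, h3⟩ := ih k₁ w (by omega) (good_symm hG' hG.cl) hG'.cl
        exact ⟨s₁, s + s₂, j₁, j₂, h1, hM.trans h2, h3⟩
    · obtain ⟨s₁, s₂, j₁, j₂, h1, h2, h3⟩ := ih w k₂ (by omega) hG' h₂
      exact ⟨s + s₁, s₂, j₁, j₂, hM.trans h1, h2, h3⟩

/-- two knots joined by a movie without moves of type III are simplified to one diagram -/
theorem common_of_virt {k₁ k₂ : List Pass} (h₁ : Classical [(k₁, 0)]) (h₂ : Classical [(k₂, 0)])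
    (h : VirtMovie [(k₁, 0)] [(k₂, 0)]) :
    ∃ (s₁ s₂ : ℕ) (j : List Pass), Mono s₁ [(k₁, 0)] [(j, 0)] ∧ Mono s₂ [(k₂, 0)] [(j, 0)] := by
  have i1 : Function.Injective fun n : ℕ => 2 * n := fun a b h => by simp only at h; omega
  have i2 : Function.Injective fun n : ℕ => 2 * n + 1 := fun a b h => by simp only at h; omega
  have w2 : WF k₂ := by simpa [wf_iff] using wf_iff.1 h₂.1
  have c1 := classical_ren i1 h₁
  have c2 := classical_ren i2 h₂
  have we : WF (bar (k₂.map (ren fun n => 2 * n + 1))) :=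
    (WF.ren w2 fun p _ q _ h => by omega).bar
  have hodd : ∀ p ∈ bar (k₂.map (ren fun n => 2 * n + 1)), p.crossing % 2 = 1 := by
    intro p hp
    obtain ⟨q, hq, h⟩ := List.mem_map.1 (mem_bar.1 hp)
    have : p.crossing = 2 * q.crossing + 1 := (congrArg Pass.crossing h).symm
    omega
  obtain ⟨κ, ⟨C, hC, hκ⟩, hI⟩ := dbl_wmovie h we hodd ⟨0, ⟨(k₂, 0), by simp, rfl⟩, inv_base w2⟩
  rw [List.mem_singleton] at hC
  subst hC
  simp only at hκ
  subst hκ
  have hG : Good [(k₁.map (ren fun n => 2 * n), 0)] (bar (k₂.map (ren fun n => 2 * n + 1))) := by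
    refine ⟨c1, by simp, ⟨_, List.mem_singleton.2 rfl, rfl⟩, ?_, hI⟩
    have := wf_dbl (D := [(k₁, 0)]) (κ := 0) h₁.1 we hodd
    rw [wf_iff, passes_snoc] at this
    exact this
  obtain ⟨s₁, s₂, j₁, j₂, m1, m2, m3⟩ := commonM _ _ _ le_rfl hG c2
  have r1 : Mono s₁ [(k₁, 0)] [(j₁, 0)] :=
    .rename (fun n => 2 * n) (fun p _ q _ h => by omega) c1 m1
  have r2 : Mono s₂ [(k₂, 0)] [(j₂, 0)] :=
    .rename (fun n => 2 * n + 1) (fun p _ q _ h => by omega) c2 m2
  exact ⟨s₁ + 0, s₂, j₂, r1.trans (m3.mono (m2.movie c2).2), r2⟩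

theorem virt_of_movie {D E : Code} (h : Movie false true D E) : VirtMovie D E := by
  induction h with
  | refl => exact .refl
  | tail _ h ih => exact ih.tail ⟨h.1.1, h.2.1.1, h.2.2⟩

theorem joined_both {k k' : List Pass} (h : Relation.EqvGen Joined k k') :
    (Classical [(k, 0)] ↔ Classical [(k', 0)]) ∧ VirtMovie [(k, 0)] [(k', 0)] ∧
      VirtMovie [(k', 0)] [(k, 0)] := by
  induction h with
  | rel k k' h =>
    obtain ⟨h1, h2, h3⟩ := h
    obtain ⟨s₁, s₂, j, m1, m2⟩ := common_of_virt h1 h2 h3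
    have r1 := movie_rev (m1.movie h1).1 (by simp) (by simp)
    have e1 : zero [(j, 0)] = [(j, 0)] := rfl
    have e2 : zero [(k, 0)] = [(k, 0)] := rfl
    rw [e1, e2] at r1
    exact ⟨⟨fun _ => h2, fun _ => h1⟩, h3,
      (virt_of_movie (movie_births (m2.movie h2).1)).trans (virt_of_movie r1)⟩
  | refl k => exact ⟨Iff.rfl, .refl, .refl⟩
  | symm _ _ _ ih => exact ⟨ih.1.symm, ih.2.2, ih.2.1⟩
  | trans _ _ _ _ _ ih1 ih2 =>
    exact ⟨ih1.1.trans ih2.1, ih1.2.1.trans ih2.2.1, ih2.2.2.trans ih1.2.2⟩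

theorem joined_of_mono {s : ℕ} {k w : List Pass} (hk : Classical [(k, 0)])
    (h : Mono s [(k, 0)] [(w, 0)]) : Joined k w := by
  obtain ⟨h1, h2⟩ := h.movie hk
  exact ⟨hk, h2, virt_of_movie (movie_births h1)⟩

/-- the simplest diagram -/
theorem exists_simplest {k : List Pass} (hk : Classical [(k, 0)]) :
    ∃ j, Relation.EqvGen Joined k j ∧
      ∀ k', Relation.EqvGen Joined k k' → ∃ s, Mono s [(k', 0)] [(j, 0)] := by
  classical
  have hne : ∃ n, ∃ j : List Pass, j.length = n ∧ Relation.EqvGen Joined k j :=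
    ⟨k.length, k, rfl, .refl _⟩
  obtain ⟨j, hj, hkj⟩ := Nat.find_spec hne
  refine ⟨j, hkj, fun k' hk' => ?_⟩
  have cj := (joined_both hkj).1.1 hk
  have ck' := (joined_both hk').1.1 hk
  have h1 : Relation.EqvGen Joined k' j := .trans _ _ _ (.symm _ _ hk') hkj
  obtain ⟨s₁, s₂, l, m1, m2⟩ := common_of_virt ck' cj (joined_both h1).2.1
  have cl := (m2.movie cj).2
  have hkl : Relation.EqvGen Joined k l := .trans _ _ _ hkj (.rel _ _ (joined_of_mono cj m2))
  have h2 := Nat.find_min' hne ⟨l, rfl, hkl⟩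
  have h3 := m2.length_le
  simp only [passes_cons, passes_nil, List.append_nil] at h3
  obtain ⟨-, h4⟩ := m2.same rfl rfl (by omega)
  exact ⟨s₁ + 0, m1.trans (h4.symm.mono cj)⟩

theorem deaths_mono {D : Code} (hn : (D.map Prod.snd).Nodup) (h : passes D = []) :
    Mono 0 D [] := by
  induction D with
  | nil => exact .refl _
  | cons C D ih =>
    rw [passes_cons, List.append_eq_nil_iff] at h
    rw [List.map_cons, List.nodup_cons] at hn
    obtain ⟨w, b⟩ := C
    obtain ⟨rfl, h⟩ := h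
    refine .death b D (fun C hC e => hn.1 ?_) (ih hn.2 h)
    simp only at e ⊢
    rw [← e]; exact List.mem_map_of_mem (f := Prod.snd) hC

theorem good_of_inv {D : Code} (hD : Classical D) (hn : (D.map Prod.snd).Nodup)
    (h0 : ∃ C ∈ D, C.2 = 0) (h : Pool.Agent.Y468.SR.Inv D) : Good D [] := by
  refine ⟨hD, hn, h0, ?_, ?_⟩
  · rw [List.append_nil]; exact hD.1
  · rw [inv_def] at h ⊢
    obtain ⟨m, hm, hN⟩ := h
    have he : passes (D ++ [([], 0)]) = passes D := by rw [passes_snoc, List.append_nil]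
    refine ⟨m, by rw [he]; exact hm, fun G _ o u hv b => ?_⟩
    have := hN G o u (by rw [he] at hv; exact hv) b
    rw [vals_append, bv_append]
    have e1 : vals o u [(([] : List Pass), 0)] = [(1, 0)] := rfl
    rw [e1, bv_cons, bv_nil]
    split_ifs
    · exact (CN.one_cons.2 this).perm List.perm_append_comm
    · rw [List.append_nil]; exact this

theorem mono_of_good (n : ℕ) : ∀ D : Code, (passes D).length ≤ n → Good D [] →
    ∃ k, Mono k D [] := by
  have hT0 : ∀ D : Code, Term D [] → passes D = [] := by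
    intro D hT
    obtain ⟨-, m, hm, -, hT⟩ := hT
    rw [List.eq_nil_iff_forall_not_mem]
    intro p hp
    obtain ⟨q, hq, h1, -, -⟩ := hm p (by simpa using hp)
    exact hT p hp q (by simpa using hq) h1.symm
  induction n with
  | zero =>
    intro D hl hG
    exact ⟨0, deaths_mono hG.nd (List.eq_nil_of_length_eq_zero (by omega))⟩
  | succ n ih =>
    intro D hl hG
    rcases reduceRM hG with ⟨k, D', h1, h2, h3⟩ | hT
    · obtain ⟨l, h4⟩ := ih D' (by omega) h2
      exact ⟨k + l, h3.trans h4⟩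
    · exact ⟨0, deaths_mono hG.nd (hT0 D hT)⟩

theorem mono_of_inv {D : Code} (hD : Classical D) (hn : (D.map Prod.snd).Nodup)
    (h0 : D = [] ∨ ∃ C ∈ D, C.2 = 0) (h : Pool.Agent.Y468.SR.Inv D) : ∃ k, Mono k D [] := by
  rcases h0 with rfl | h0
  · exact ⟨0, .refl _⟩
  · exact mono_of_good _ D le_rfl (good_of_inv hD hn h0 h)

theorem inv_of_virt {D D' : Code} (h : VirtMovie D D') (hi : Pool.Agent.Y468.SR.Inv D') :
    Pool.Agent.Y468.SR.Inv D := by
  induction h using Relation.ReflTransGen.head_induction_on with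
  | refl => exact hi
  | head h _ ih => exact step_inv h.1 h.2.1 h.2.2 ih

/-- a null matching for a link -/
theorem null_iff_matching {D : Code} {m : ℕ → ℕ} :
    NullMatching D m ↔ Matching (passes D) m ∧ Null D m := by
  constructor
  · rintro ⟨h1, h2⟩
    refine ⟨h1, fun G _ o u hv C hC => ?_⟩
    obtain ⟨φ, hφ⟩ := univ hv
    rw [← hφ C.1 (fun r hr => mem_passes.2 ⟨C, hC, hr⟩), wval_letter]
    change φ (FreeGroup.mk (C.1.map (letter m))) = 1
    rw [h2 C hC, map_one]
  · rintro ⟨h1, h2⟩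
    refine ⟨h1, fun C hC => ?_⟩
    have := h2 _ _ _ (valid_letter h1) C hC
    rw [wval_letter] at this
    exact this

/-- the theorem on links -/
theorem links (L : List (List Pass)) (hL : Classical L.zipIdx) :
    (VirtMovie L.zipIdx [] ↔ ∃ m, NullMatching L.zipIdx m) ∧
    (VirtMovie L.zipIdx [] ↔ ∃ k, Mono k L.zipIdx []) := by
  have hn : (L.zipIdx.map Prod.snd).Nodup := by
    rw [List.zipIdx_map_snd]
    exact List.nodup_range'
  have h0 : L.zipIdx = [] ∨ ∃ C ∈ L.zipIdx, C.2 = 0 := by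
    cases L with
    | nil => exact Or.inl rfl
    | cons w L => exact Or.inr ⟨(w, 0), by simp, rfl⟩
  have h1 : VirtMovie L.zipIdx [] → Pool.Agent.Y468.SR.Inv L.zipIdx :=
    fun h => inv_of_virt h inv_nil
  have h2 : Pool.Agent.Y468.SR.Inv L.zipIdx → ∃ k, Mono k L.zipIdx [] :=
    fun h => mono_of_inv hL hn h0 h
  have h3 : (∃ k, Mono k L.zipIdx []) → VirtMovie L.zipIdx [] := by
    rintro ⟨k, h⟩
    exact virt_of_movie (movie_births (h.movie hL).1)
  have h4 : Pool.Agent.Y468.SR.Inv L.zipIdx ↔ ∃ m, NullMatching L.zipIdx m := by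
    constructor
    · intro h
      obtain ⟨m, h⟩ := null_of_inv hn h
      exact ⟨m, null_iff_matching.2 h⟩
    · rintro ⟨m, h⟩
      obtain ⟨h5, h6⟩ := null_iff_matching.1 h
      exact inv_of_null h5 h6
  exact ⟨⟨fun h => h4.1 (h1 h), fun h => h3 (h2 (h4.2 h))⟩, ⟨fun h => h2 (h1 h), h3⟩⟩

end Pool.Agent.Q127.MS
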