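import Pool.Agent.Q127.MS.Knot

/-! Positive diagrams: monotone simplifications are moves of type I. -/

namespace Pool.Agent.Q127.MS

open Pool.Agent.Y468.SR

/-- all crossings have the sign `ε` -/
def Signed (ε : Bool) (k : List Pass) : Prop := ∀ p ∈ k, p.isPos = ε

theorem enc_one {k : List Pass} {b : ℕ} {A B : List (Pass ⊕ ℕ)} {p q : Pass}
    (h : enc [(k, b)] = A ++ two p q ++ B) :
    ∃ x y : List Pass, k = x ++ p :: q :: y ∧ A = x.map Sum.inl ∧
      B = y.map Sum.inl ++ [Sum.inr b] := by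
  have h0 : k.map Sum.inl ++ [(Sum.inr b : Pass ⊕ ℕ)] = A ++ two p q ++ B := by
    simpa [enc] using h
  rcases List.eq_nil_or_concat B with rfl | ⟨B', z, rfl⟩
  · exfalso
    have h1 := congrArg List.getLast? h0
    simp [two] at h1
  · rw [List.concat_eq_append, ← List.append_assoc] at h0
    obtain ⟨h1, h2⟩ := List.append_inj' h0 rfl
    simp only [List.cons.injEq, and_true] at h2
    subst h2
    rw [List.append_assoc] at h1
    obtain ⟨x, y', e1, e2, e3⟩ := List.map_eq_append_iff.1 h1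
    obtain ⟨t, y, e4, e5, e6⟩ := List.map_eq_append_iff.1 e3
    have e7 : t = [p, q] := by
      have h7 : Function.Injective (Sum.inl : Pass → Pass ⊕ ℕ) := Sum.inl_injective
      have : t.map (Sum.inl : Pass → Pass ⊕ ℕ) = [p, q].map Sum.inl := e5
      exact List.map_injective_iff.2 h7 this
    subst e7
    refine ⟨x, y, by rw [e1, e4]; rfl, e2.symm, ?_⟩
    rw [List.concat_eq_append, e6]

theorem mono_pos {ε : Bool} {s : ℕ} {D E : Code} (h : Mono s D E) : ∀ {k w : List Pass},
    D = [(k, 0)] → E = [(w, 0)] → Classical [(k, 0)] → Signed ε k →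
    s = 0 ∧ Signed ε w ∧ Movie false false [(w, 0)] [(k, 0)] := by
  induction h with
  | refl D =>
    intro k w h1 h2 _ h4
    rw [h1] at h2
    simp only [List.cons.injEq, Prod.mk.injEq, and_true] at h2
    rw [← h2]
    exact ⟨rfl, h4, .refl⟩
  | perm h _ ih =>
    intro k w h1 h2 h3 h4
    subst h1
    exact ih (List.perm_singleton.1 h.symm) h2 h3 h4
  | rotate x y b R _ ih =>
    intro k w h1 h2 h3 h4
    simp only [List.cons.injEq, Prod.mk.injEq] at h1
    obtain ⟨⟨rfl, rfl⟩, rfl⟩ := h1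
    have h5 : Classical [(y ++ x, 0)] := classical_rotate h3
    obtain ⟨a1, a2, a3⟩ := ih rfl h2 h5 fun p hp => h4 p (by simp at hp ⊢; tauto)
    exact ⟨a1, a2, a3.tail ⟨h5, h3, Step.rotate y x 0 []⟩⟩
  | rename f hf h _ ih =>
    intro k w h1 h2 h3 h4
    subst h1
    have e0 : renamed f [(k, 0)] = [(k.map (ren f), 0)] := rfl
    rw [e0] at h
    obtain ⟨a1, a2, a3⟩ := ih (k := k.map (ren f)) rfl h2 h (fun p hp => by
      obtain ⟨q, hq, rfl⟩ := List.mem_map.1 hp
      exact h4 q hq)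
    have h5 : Mono 0 [(k.map (ren f), 0)] [(k, 0)] :=
      Same.mono (Same.symm ⟨f, fun p hp q hq => hf p (by simpa using hp) q (by simpa using hq),
        List.IsRotated.refl _⟩) h3
    exact ⟨a1, a2, a3.trans (h5.movie h).1⟩
  | death b R hb hm ih =>
    intro k w h1 h2 _ _
    simp only [List.cons.injEq] at h1
    have := hm.nil h1.2
    rw [this] at h2
    simp at h2
  | @one n D D' E A B p h hD hD' hm ih =>
    intro k w h1 h2 h3 h4
    subst h1
    obtain ⟨x, y, e1, e2, e3⟩ := enc_one hD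
    have e4 : D' = [(x ++ y, 0)] := by
      refine Pool.Agent.Y874.TP2.T4.enc_inj ?_
      rw [hD', e2, e3]
      simp [enc]
    subst e4
    obtain ⟨a1, a2, a3⟩ := ih rfl h2 h fun q hq => h4 q (by rw [e1]; simp at hq ⊢; tauto)
    refine ⟨a1, a2, a3.tail ⟨h, h3, Step.reidInv _ _ ?_⟩⟩
    rw [hD, hD']
    exact .one A B p
  | cut x y z b₀ b'' b₁ b₂ R A B C p q hb' hb h h'' hpq ho hs hD hD' hm ih =>
    intro k w h1 h2 h3 h4
    exfalso
    simp only [List.cons.injEq, Prod.mk.injEq] at h1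
    obtain ⟨⟨rfl, rfl⟩, rfl⟩ := h1
    have e1 := congrArg pl hD
    simp only [pl_enc, pl_append, pl_two, passes_cons, passes_nil, List.append_nil] at e1
    have hp : p ∈ x ++ z ++ y := by rw [e1]; simp
    have hq : q ∈ x ++ z ++ y := by rw [e1]; simp
    have s1 := h4 p (by simp at hp ⊢; tauto)
    have s2 := h4 q (by simp at hq ⊢; tauto)
    rw [s1, s2] at hs
    simp at hs

/-- a positive or negative knot is the minimum of its class -/
theorem pos_le {ε : Bool} {k k' : List Pass} (hk : Classical [(k, 0)]) (hp : Signed ε k)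
    (h : Relation.EqvGen Joined k k') : Movie false false [(k', 0)] [(k, 0)] := by
  obtain ⟨h1, h2, -⟩ := joined_both h
  have hk' := h1.1 hk
  obtain ⟨s₁, s₂, j, m1, m2⟩ := common_of_virt hk hk' h2
  exact (m2.movie hk').1.trans (mono_pos m1 rfl rfl hk hp).2.2

/-- the simplest diagram of the class is obtained by moves of type I -/
theorem pos_simplest {ε : Bool} {k : List Pass} (hk : Classical [(k, 0)]) (hp : Signed ε k) :
    ∃ j : List Pass, Mono 0 [(k, 0)] [(j, 0)] ∧ Signed ε j ∧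
      ∀ k' : List Pass, Relation.EqvGen Joined k k' →
        (∃ s : ℕ, Mono s [(k', 0)] [(j, 0)]) ∧ (k'.length ≤ j.length → Same k' j) := by
  obtain ⟨j, hj, h⟩ := exists_simplest hk
  obtain ⟨s, hs⟩ := h k (.refl _)
  obtain ⟨h1, h2, -⟩ := mono_pos hs rfl rfl hk hp
  subst h1
  refine ⟨j, hs, h2, fun k' hk' => ?_⟩
  obtain ⟨t, ht⟩ := h k' hk'
  have hl := ht.length_le
  simp only [passes_cons, passes_nil, List.append_nil] at hl
  exact ⟨⟨t, ht⟩, fun h3 => (ht.same rfl rfl (by omega)).2⟩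

end Pool.Agent.Q127.MS
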