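import Pool.Agent.Q127.MS.Knot

/-! Connected sums of diagrams and null matchings. -/

namespace Pool.Agent.Q127.MS

open Pool.Agent.Y468.SR
open Pool.Agent.Y874.TP2.T4 (dbl_wmovie)

/-- no common names of crossings -/
def Disj (k r : List Pass) : Prop := ∀ p ∈ k, ∀ q ∈ r, p.crossing ≠ q.crossing

theorem wf1 {k : List Pass} {b : ℕ} : WellFormed [(k, b)] ↔ WF k := by
  rw [wf_iff]; simp

theorem wf2 {k r : List Pass} {b c : ℕ} : WellFormed [(k, b), (r, c)] ↔ WF (k ++ r) := by
  rw [wf_iff]; simp

theorem odd_ren (k : List Pass) : ∀ p ∈ k.map (ren fun n => 2 * n + 1), p.crossing % 2 = 1 := by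
  intro p hp
  obtain ⟨q, -, rfl⟩ := List.mem_map.1 hp
  simp only [ren]
  omega

theorem even_ren (k : List Pass) : ∀ p ∈ k.map (ren fun n => 2 * n), p.crossing % 2 = 0 := by
  intro p hp
  obtain ⟨q, -, rfl⟩ := List.mem_map.1 hp
  simp only [ren]
  omega

theorem half_even (k : List Pass) : (k.map (ren fun n => 2 * n)).map (ren fun n => n / 2) = k := by
  rw [List.map_map]
  conv_rhs => rw [← List.map_id k]
  refine List.map_congr_left fun p _ => ?_
  simp [ren]

theorem half_odd (k : List Pass) :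
    (k.map (ren fun n => 2 * n + 1)).map (ren fun n => n / 2) = k := by
  rw [List.map_map]
  conv_rhs => rw [← List.map_id k]
  refine List.map_congr_left fun p _ => ?_
  have : (2 * p.crossing + 1) / 2 = p.crossing := by omega
  simp [ren, this]

/-- cutting a connected sum -/
theorem inv_split {k r : List Pass} (hk : WF k) (hr : WF r) (hd : Disj k r)
    (h : Pool.Agent.Y468.SR.Inv [(k ++ r, 0)]) :
    Pool.Agent.Y468.SR.Inv (dbl [(r, 0)] ++ [(k.map (ren fun n => 2 * n + 1), 0)]) := by
  have w : WF (k ++ r) := hk.append hr hd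
  have ho := odd_ren k
  have he := even_ren r
  have wk : WF (k.map (ren fun n => 2 * n + 1)) := hk.ren fun p _ q _ h => by omega
  have wr : WF (r.map (ren fun n => 2 * n)) := hr.ren fun p _ q _ h => by omega
  have hh1 := half_odd k
  have hh2 := half_even r
  have e0 : dbl [(r, 0)] = [(r.map (ren fun n => 2 * n), 0)] := rfl
  rw [e0]
  have hf : ∀ p ∈ passes [(k.map (ren fun n => 2 * n + 1) ++ r.map (ren fun n => 2 * n), 0)],
      ∀ q ∈ passes [(k.map (ren fun n => 2 * n + 1) ++ r.map (ren fun n => 2 * n), 0)],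
      p.crossing / 2 = q.crossing / 2 → p.crossing = q.crossing := by
    intro p hp q hq hpq
    simp only [passes_cons, passes_nil, List.append_nil, List.mem_append] at hp hq
    rcases hp with hp | hp <;> rcases hq with hq | hq
    · have := ho p hp; have := ho q hq; omega
    · exfalso
      obtain ⟨p', hp', rfl⟩ := List.mem_map.1 hp
      obtain ⟨q', hq', rfl⟩ := List.mem_map.1 hq
      refine hd p' hp' q' hq' ?_
      simp only [ren] at hpq
      omega
    · exfalso
      obtain ⟨p', hp', rfl⟩ := List.mem_map.1 hp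
      obtain ⟨q', hq', rfl⟩ := List.mem_map.1 hq
      refine hd q' hq' p' hp' ?_
      simp only [ren] at hpq
      omega
    · have := he p hp; have := he q hq; omega
  have s1 : Step false false
      [(k.map (ren fun n => 2 * n + 1) ++ r.map (ren fun n => 2 * n), 0)] [(k ++ r, 0)] := by
    have := Step.rename (r3 := false) (births := false) (fun n => n / 2)
      [(k.map (ren fun n => 2 * n + 1) ++ r.map (ren fun n => 2 * n), 0)] hf
    rw [renamed_def] at this
    simp only [List.map_cons, List.map_nil, List.map_append, hh1, hh2] at this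
    exact this
  generalize k.map (ren fun n => 2 * n + 1) = k' at *
  generalize r.map (ren fun n => 2 * n) = r' at *
  have w' : WF (k' ++ r') := wk.append wr fun p hp q hq h => by
    have := ho p hp; have := he q hq; omega
  have w'' : WF (r' ++ k') := w'.perm List.perm_append_comm
  have i1 := step_inv (wf1.2 w') (wf1.2 w) s1 h
  have s2 : Step false false [(k', 0), (r', 0)] [(k' ++ r', 0)] := Step.merge k' r' 0 []
  have i2 := step_inv (wf2.2 w') (wf1.2 w') s2 i1
  have s3 : Step false false [(r', 0), (k', 0)] [(k', 0), (r', 0)] :=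
    Step.perm _ _ (List.Perm.swap _ _ _)
  exact step_inv (wf2.2 w'') (wf2.2 w') s3 i2

/-- the unknot -/
theorem classical_unknot : Classical [(([] : List Pass), 0)] := by
  refine ⟨⟨by simp [passes], by simp [passes]⟩, fun back front _ _ => ⟨fun _ => 0, ?_, ?_⟩⟩
  · intro C hC
    rw [List.mem_singleton] at hC
    subst hC
    exact ⟨(0, 0), rfl⟩
  · intro p hp
    simp [passes] at hp

theorem length_same {k w : List Pass} (h : Same k w) : k.length = w.length := by
  obtain ⟨f, -, hr⟩ := h
  have := hr.perm.length_eq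
  simpa using this

/-- a diagram bounding a disc without triple points is simplified to the unknot -/
theorem mono_unknot {r : List Pass} (hr : Classical [(r, 0)])
    (h : Pool.Agent.Y468.SR.Inv [(r, 0)]) : ∃ s, Mono s [(r, 0)] [([], 0)] := by
  have hG : Good [(r, 0)] (bar []) :=
    good_of_inv hr (by simp) ⟨(r, 0), by simp, rfl⟩ h
  obtain ⟨s₁, s₂, j₁, j₂, h1, h2, h3⟩ := commonM _ r [] le_rfl hG classical_unknot
  have h4 := h2.length_le
  simp only [passes_cons, passes_nil, List.append_nil, List.length_nil] at h4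
  have h5 : j₂ = [] := List.eq_nil_of_length_eq_zero (by omega)
  subst h5
  have h6 : j₁ = [] := List.eq_nil_of_length_eq_zero (by rw [length_same h3]; rfl)
  subst h6
  exact ⟨s₁, h1⟩

theorem unknot_to {r : List Pass} (hr : Classical [(r, 0)])
    (h : Pool.Agent.Y468.SR.Inv [(r, 0)]) : VirtMovie [([], 0)] [(r, 0)] := by
  obtain ⟨s, hs⟩ := mono_unknot hr h
  exact virt_of_movie (movie_rev (hs.movie hr).1 (by simp) (by simp))

/-- cancellation, the invariant -/
theorem inv_cancel {k r : List Pass} (hk : Classical [(k, 0)]) (hr : Classical [(r, 0)])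
    (hd : Disj k r) (h1 : Pool.Agent.Y468.SR.Inv [(r, 0)])
    (h2 : Pool.Agent.Y468.SR.Inv [(k ++ r, 0)]) : Pool.Agent.Y468.SR.Inv [(k, 0)] := by
  have wk : WF k := wf1.1 hk.1
  have wk' : WF (k.map (ren fun n => 2 * n + 1)) := wk.ren fun p _ q _ h => by omega
  have i1 := inv_split wk (wf1.1 hr.1) hd h2
  obtain ⟨κ, ⟨C, hC, hκ⟩, i2⟩ := dbl_wmovie (unknot_to hr h1) wk' (odd_ren k)
    ⟨0, ⟨(r, 0), by simp, rfl⟩, i1⟩
  rw [List.mem_singleton] at hC
  subst hC
  simp only at hκ
  subst hκ
  have e0 : dbl [(([] : List Pass), 0)] ++ [(k.map (ren fun n => 2 * n + 1), 0)] =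
      [([], 0), (k.map (ren fun n => 2 * n + 1), 0)] := rfl
  rw [e0] at i2
  have s1 : Step false true [(k.map (ren fun n => 2 * n + 1), 0)]
      [([], 0), (k.map (ren fun n => 2 * n + 1), 0)] :=
    Step.birth rfl 0 _ ⟨_, List.mem_singleton.2 rfl, rfl⟩
  have i3 := step_inv (wf1.2 wk') (wf2.2 (by simpa using wk')) s1 i2
  have s2 : Step false false [(k, 0)] [(k.map (ren fun n => 2 * n + 1), 0)] :=
    Step.rename (fun n => 2 * n + 1) [(k, 0)] fun p _ q _ h => by omega
  exact step_inv hk.1 (wf1.2 wk') s2 i3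

theorem null_append {k r : List Pass} {m₁ m₂ : ℕ → ℕ} (hd : Disj k r)
    (h1 : NullMatching [(k, 0)] m₁) (h2 : NullMatching [(r, 0)] m₂) :
    ∃ m, NullMatching [(k ++ r, 0)] m := by
  classical
  simp only [NullMatching, passes_cons, passes_nil, List.append_nil, List.mem_singleton,
    forall_eq] at h1 h2 ⊢
  obtain ⟨a1, a2⟩ := h1
  obtain ⟨b1, b2⟩ := h2
  obtain ⟨m, hm⟩ : ∃ m : ℕ → ℕ, m = fun c => if ∃ p ∈ k, p.crossing = c then m₁ c else m₂ c :=
    ⟨_, rfl⟩
  have hm1 : ∀ p ∈ k, m p.crossing = m₁ p.crossing := fun p hp => by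
    rw [hm]; exact if_pos ⟨p, hp, rfl⟩
  have hm2 : ∀ p ∈ r, m p.crossing = m₂ p.crossing := fun p hp => by
    rw [hm]; exact if_neg (by rintro ⟨q, hq, h⟩; exact hd q hq p hp h)
  have l1 : k.map (letter m) = k.map (letter m₁) :=
    List.map_congr_left fun p hp => by unfold letter; rw [hm1 p hp]
  have l2 : r.map (letter m) = r.map (letter m₂) :=
    List.map_congr_left fun p hp => by unfold letter; rw [hm2 p hp]
  refine ⟨m, fun p hp => ?_, ?_⟩
  · rcases List.mem_append.1 hp with hp | hp
    · obtain ⟨q, hq, c1, c2, c3⟩ := a1 p hp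
      exact ⟨q, by simp [hq], by rw [hm1 p hp, c1], by rw [hm1 q hq, c2], c3⟩
    · obtain ⟨q, hq, c1, c2, c3⟩ := b1 p hp
      exact ⟨q, by simp [hq], by rw [hm2 p hp, c1], by rw [hm2 q hq, c2], c3⟩
  · rw [List.map_append, l1, l2, ← FreeGroup.mul_mk, a2, b2, one_mul]

theorem inv_of_matching {D : Code} {m : ℕ → ℕ} (h : NullMatching D m) :
    Pool.Agent.Y468.SR.Inv D := by
  obtain ⟨h1, h2⟩ := null_iff_matching.1 h
  exact inv_of_null h1 h2

theorem matching_of_inv {k : List Pass} (h : Pool.Agent.Y468.SR.Inv [(k, 0)]) :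
    ∃ m, NullMatching [(k, 0)] m := by
  obtain ⟨m, h⟩ := null_of_inv (by simp) h
  exact ⟨m, null_iff_matching.2 h⟩

/-- discs for the knot `k` -/
theorem disc_of_inv {k : List Pass} (hk : Classical [(k, 0)])
    (h : Pool.Agent.Y468.SR.Inv [(k, 0)]) :
    (∃ m, NullMatching [(k, 0)] m) ∧ IsRibbon k ∧
      ∃ s : ℕ, 4 * s ≤ k.length ∧ Mono s [(k, 0)] [] := by
  obtain ⟨s, hs⟩ := mono_of_inv hk (by simp) (Or.inr ⟨(k, 0), by simp, rfl⟩) h
  have hl := hs.length_le
  simp only [passes_cons, passes_nil, List.append_nil, List.length_nil] at hl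
  exact ⟨matching_of_inv h, movie_mono (hs.movie hk).1, s, by omega, hs⟩

end Pool.Agent.Q127.MS
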