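import Pool.Agent.Q127.MS.Sum
import Pool.Agent.Q127.MS.Cyc

/-! Connected sums with reversed mirror images. -/

namespace Pool.Agent.Q127.MS

open Pool.Agent.Y468.SR
open Pool.Agent.Y874.TP2.T4 (dbl_wmovie)

/-- the diagram of the connected sum of `k₁` and of the reversed mirror image of `k₂` at the starting
points of the words, the crossings being renamed in order that their names be different -/
def conSum (k₁ k₂ : List Pass) : List Pass :=
  (k₁.map fun p => (⟨2 * p.crossing, p.isOver, p.isPos⟩ : Pass)) ++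
    (k₂.map fun p => (⟨2 * p.crossing + 1, p.isOver, !p.isPos⟩ : Pass)).reverse

theorem conSum_eq (k₁ k₂ : List Pass) : conSum k₁ k₂ =
    k₁.map (ren fun n => 2 * n) ++ bar (k₂.map (ren fun n => 2 * n + 1)) := by
  unfold conSum bar
  rw [List.map_map]
  rfl

theorem inv_pair_of_sum {k₁ k₂ : List Pass} (h₁ : WF k₁) (h₂ : WF k₂)
    (h : Pool.Agent.Y468.SR.Inv [(conSum k₁ k₂, 0)]) : Pool.Agent.Y468.SR.Inv
      [(k₁.map (ren fun n => 2 * n), 0), (bar (k₂.map (ren fun n => 2 * n + 1)), 0)] := by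
  rw [conSum_eq] at h
  have w1 : WF (k₁.map (ren fun n => 2 * n)) := h₁.ren fun p _ q _ h => by omega
  have w2 : WF (bar (k₂.map (ren fun n => 2 * n + 1))) := (h₂.ren fun p _ q _ h => by omega).bar
  have w : WF (k₁.map (ren fun n => 2 * n) ++ bar (k₂.map (ren fun n => 2 * n + 1))) :=
    w1.append w2 fun p hp q hq h => by
      have h1 := even_ren k₁ p hp
      have h2 := odd_ren k₂ (flp q) (mem_bar.1 hq)
      simp only [flp] at h2
      omega
  exact step_inv (births := false) (wf2.2 w) (wf1.2 w) (Step.merge _ _ 0 []) h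

/-- a null matching of the connected sum gives a common simplification -/
theorem common_of_inv {k₁ k₂ : List Pass} (h₁ : Classical [(k₁, 0)]) (h₂ : Classical [(k₂, 0)])
    (hI : Pool.Agent.Y468.SR.Inv
      [(k₁.map (ren fun n => 2 * n), 0), (bar (k₂.map (ren fun n => 2 * n + 1)), 0)]) :
    ∃ (s₁ s₂ : ℕ) (j : List Pass), Mono s₁ [(k₁, 0)] [(j, 0)] ∧ Mono s₂ [(k₂, 0)] [(j, 0)] := by
  have i1 : Function.Injective fun n : ℕ => 2 * n := fun a b h => by simp only at h; omega
  have i2 : Function.Injective fun n : ℕ => 2 * n + 1 := fun a b h => by simp only at h; omega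
  have w1 : WF k₁ := wf1.1 h₁.1
  have w2 : WF k₂ := wf1.1 h₂.1
  have c1 := classical_ren i1 h₁
  have c2 := classical_ren i2 h₂
  have we : WF (bar (k₂.map (ren fun n => 2 * n + 1))) :=
    (WF.ren w2 fun p _ q _ h => by omega).bar
  have hodd : ∀ p ∈ bar (k₂.map (ren fun n => 2 * n + 1)), p.crossing % 2 = 1 := by
    intro p hp
    exact odd_ren k₂ (flp p) (mem_bar.1 hp)
  have hG : Good [(k₁.map (ren fun n => 2 * n), 0)] (bar (k₂.map (ren fun n => 2 * n + 1))) := by
    refine ⟨c1, by simp, ⟨_, List.mem_singleton.2 rfl, rfl⟩, ?_, hI⟩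
    have := wf_dbl (D := [(k₁, 0)]) (κ := 0) h₁.1 we hodd
    rw [wf_iff, passes_snoc] at this
    exact this
  obtain ⟨s₁, s₂, j₁, j₂, m1, m2, m3⟩ := commonM _ _ _ le_rfl hG c2
  have r1 : Mono s₁ [(k₁, 0)] [(j₁, 0)] :=
    .rename (fun n => 2 * n) (fun p _ q _ h => by omega) c1 m1
  have r2 : Mono s₂ [(k₂, 0)] [(j₂, 0)] :=
    .rename (fun n => 2 * n + 1) (fun p _ q _ h => by omega) c2 m2
  exact ⟨s₁ + 0, s₂, j₂, r1.trans (m3.mono (m2.movie c2).2), r2⟩

theorem classical_rotate' {k : List Pass} (n : ℕ) (h : Classical [(k, 0)]) :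
    Classical [(k.rotate n, 0)] := by
  rw [List.rotate_eq_drop_append_take_mod]
  have h' : Classical [(k.take (n % k.length) ++ k.drop (n % k.length), 0)] := by
    rwa [List.take_append_drop]
  exact classical_rotate h'

theorem mono_rotate (k : List Pass) (n : ℕ) : Mono 0 [(k, 0)] [(k.rotate n, 0)] := by
  rw [List.rotate_eq_drop_append_take_mod]
  have : Mono 0 [(k.take (n % k.length) ++ k.drop (n % k.length), 0)]
      [(k.drop (n % k.length) ++ k.take (n % k.length), 0)] := .rotate _ _ 0 [] (.refl _)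
  rwa [List.take_append_drop] at this

/-- letters of a reversed mirror image -/
theorem letters_bar (m : ℕ → ℕ) (k : List Pass) :
    FreeGroup.invRev ((bar k).map (letter m)) =
      k.map (fun p => ((letter m (flp p)).1, !(letter m (flp p)).2)) := by
  unfold FreeGroup.invRev
  rw [bar_eq, List.map_reverse, List.map_reverse, List.reverse_reverse, List.map_map, List.map_map]
  rfl

/-- joined knots have a connected sum with a null matching -/
theorem sum_of_joined {k₁ k₂ : List Pass} (h₂ : Classical [(k₂, 0)])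
    (h : VirtMovie [(k₁, 0)] [(k₂, 0)]) :
    ∃ (a b : ℕ) (m : ℕ → ℕ), NullMatching [(conSum (k₁.rotate a) (k₂.rotate b), 0)] m := by
  have w2 : WF k₂ := wf1.1 h₂.1
  have we : WF (bar (k₂.map (ren fun n => 2 * n + 1))) :=
    (WF.ren w2 fun p _ q _ h => by omega).bar
  have hodd : ∀ p ∈ bar (k₂.map (ren fun n => 2 * n + 1)), p.crossing % 2 = 1 := by
    intro p hp
    exact odd_ren k₂ (flp p) (mem_bar.1 hp)
  obtain ⟨κ, ⟨C, hC, hκ⟩, hI⟩ := dbl_wmovie h we hodd ⟨0, ⟨(k₂, 0), by simp, rfl⟩, inv_base w2⟩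
  rw [List.mem_singleton] at hC
  subst hC
  simp only at hκ
  subst hκ
  have e0 : dbl [(k₁, 0)] ++ [(bar (k₂.map (ren fun n => 2 * n + 1)), 0)] =
      [(k₁.map (ren fun n => 2 * n), 0), (bar (k₂.map (ren fun n => 2 * n + 1)), 0)] := rfl
  rw [e0, inv_def] at hI
  obtain ⟨m, hm, hN⟩ := hI
  have hcn := hN _ _ _ (valid_letter hm) 0
  have e1 : ∀ x y : List Pass, bv (vals (fo m) (fu m) [(x, 0), (y, 0)]) 0 =
      [wval (fo m) (fu m) x, wval (fo m) (fu m) y] := fun x y => rfl
  rw [e1, wval_letter, wval_letter, cn_pair] at hcn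
  obtain ⟨g, hg⟩ := hcn
  change FreeGroup.mk ((k₁.map (ren fun n => 2 * n)).map (letter m)) * (g * FreeGroup.mk
    ((bar (k₂.map (ren fun n => 2 * n + 1))).map (letter m)) * g⁻¹) = 1 at hg
  have e2 : FreeGroup.mk ((k₁.map (ren fun n => 2 * n)).map (letter m)) =
      g * FreeGroup.mk (FreeGroup.invRev ((bar (k₂.map (ren fun n => 2 * n + 1))).map (letter m))) *
        g⁻¹ := by
    rw [← FreeGroup.inv_mk]
    have := mul_eq_one_iff_eq_inv.1 hg
    rw [this]
    group
  obtain ⟨v', w', hv, hw, hvw⟩ := conj_rotations e2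
  obtain ⟨a, -, ha⟩ := List.isRotated_iff_mod.1 hv
  obtain ⟨b, -, hb⟩ := List.isRotated_iff_mod.1 hw
  refine ⟨a, b, m, ?_, ?_⟩
  · have hperm : ∀ r, r ∈ passes [(conSum (k₁.rotate a) (k₂.rotate b), 0)] ↔
        r ∈ passes [(k₁.map (ren fun n => 2 * n), 0),
          (bar (k₂.map (ren fun n => 2 * n + 1)), 0)] := by
      intro r
      rw [conSum_eq]
      simp only [passes_cons, passes_nil, List.append_nil, List.mem_append, mem_bar, List.mem_map,
        List.mem_rotate]
    intro p hp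
    obtain ⟨q, hq, h1, h2, h3⟩ := hm p ((hperm p).1 hp)
    exact ⟨q, (hperm q).2 hq, h1, h2, h3⟩
  · intro C hC
    rw [List.mem_singleton] at hC
    subst hC
    simp only
    rw [conSum_eq, List.map_append, ← FreeGroup.mul_mk]
    have f1 : ((k₁.rotate a).map (ren fun n => 2 * n)).map (letter m) = v' := by
      rw [← ha, List.map_rotate, List.map_rotate]
    have f2 : FreeGroup.invRev ((bar ((k₂.rotate b).map (ren fun n => 2 * n + 1))).map (letter m)) =
        w' := by
      rw [← hb, letters_bar, letters_bar, List.map_rotate, List.map_rotate]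
    have f3 : (FreeGroup.mk ((bar ((k₂.rotate b).map (ren fun n => 2 * n + 1))).map (letter m)))⁻¹ =
        FreeGroup.mk w' := by rw [FreeGroup.inv_mk, f2]
    rw [f1, hvw, ← f3, inv_mul_cancel]

/-- the criterion for concordances without triple points -/
theorem joined_iff {k₁ k₂ : List Pass} (h₁ : Classical [(k₁, 0)]) (h₂ : Classical [(k₂, 0)]) :
    Relation.EqvGen Joined k₁ k₂ ↔
      ∃ (a b : ℕ) (m : ℕ → ℕ), NullMatching [(conSum (k₁.rotate a) (k₂.rotate b), 0)] m := by
  constructor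
  · intro h
    exact sum_of_joined h₂ (joined_both h).2.1
  · rintro ⟨a, b, m, h⟩
    have c1 := classical_rotate' a h₁
    have c2 := classical_rotate' b h₂
    obtain ⟨s₁, s₂, j, m1, m2⟩ := common_of_inv c1 c2
      (inv_pair_of_sum (wf1.1 c1.1) (wf1.1 c2.1) (inv_of_matching h))
    exact .trans _ _ _ (.rel _ _ (joined_of_mono h₁ ((mono_rotate k₁ a).trans m1)))
      (.symm _ _ (.rel _ _ (joined_of_mono h₂ ((mono_rotate k₂ b).trans m2))))

end Pool.Agent.Q127.MS
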